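import Pool.Agent.H62.S6.Adm
import Pool.Agent.H88.S6F.Frm

/-!
# The plateau of `R - varpi`: the frames of one family

Two labels `al j`, `ta j` of the windows `w j` (directions of the fans in the two coordinates of the
normal form with the slope `s`) give the frames of all integer windows.
-/

set_option autoImplicit false

namespace Pool.S6HF

open Finset Real
open Pool.Agent.H49.Ent Pool.Agent.H32.Dense Pool.STK Pool.KA Pool.KSAT Pool.K2S Pool.PB Pool.KS6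
  Pool.S6C Pool.FALL

/-- Rounding. -/
noncomputable def rdg (n : ℕ) (x : ℝ) : ℝ := ⌊(2 : ℝ) ^ n * x⌋ / 2 ^ n

theorem rdg_near (n : ℕ) (x : ℝ) : |rdg n x - x| ≤ 1 / 2 ^ n := by
  have h2 : (0 : ℝ) < 2 ^ n := by positivity
  have e1 : rdg n x - x = (⌊(2 : ℝ) ^ n * x⌋ - 2 ^ n * x) / 2 ^ n := by
    unfold rdg
    field_simp
  rw [e1, abs_div, abs_of_pos h2]
  refine div_le_div_of_nonneg_right ?_ h2.le
  rw [abs_le]
  have h3 := Int.floor_le ((2 : ℝ) ^ n * x)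
  have h4 := Int.lt_floor_add_one ((2 : ℝ) ^ n * x)
  constructor <;> linarith

theorem rdg_grid (n : ℕ) (x : ℝ) : ∃ z : ℤ, rdg n x = z / 2 ^ n := ⟨_, rfl⟩

theorem inv_mono {m n : ℕ} (h : m ≤ n) : (1 : ℝ) / 2 ^ n ≤ 1 / 2 ^ m :=
  one_div_le_one_div_of_le (by positivity) (pow_le_pow_right₀ (by norm_num) h)

/-- **The labels of the grid**: `al j`, `ta j` are the labels of the window `w j`, close to the
exact direction `(eu, kk)` in the normal form with the slope `s`. -/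
structure GLb {J : ℕ} (F : Fam 3 J) (A : F.Ω → Prop) (i₀ iu iN : Fin 3) (M Pu PN : ℕ)
    (w V R : ℕ → ℕ) (al ta : ℕ → F.Ω → ℝ) (s eu nu kk bb nN : F.Ω → ℝ) : Prop where
  hi : ∀ j : Fin 3, j = i₀ ∨ j = iu ∨ j = iN
  /-- the labels are functions of the window -/
  fa : ∀ j ≤ M, ∀ ω ω', slam F (w j) ω = slam F (w j) ω' → al j ω = al j ω' ∧ ta j ω = ta j ω'
  fs : ∀ ω ω', slam F (w M) ω = slam F (w M) ω' → s ω = s ω'
  wJ : ∀ j ≤ M, w j ≤ J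
  /-- everything is a function of the point -/
  fp : ∀ ω ω', A ω → A ω' → Fam.pt F ω = Fam.pt F ω' →
    s ω = s ω' ∧ eu ω = eu ω' ∧ nu ω = nu ω' ∧ kk ω = kk ω' ∧ bb ω = bb ω' ∧ nN ω = nN ω'
  fpa : ∀ j ≤ M, ∀ ω ω', A ω → A ω' → Fam.pt F ω = Fam.pt F ω' →
    al j ω = al j ω' ∧ ta j ω = ta j ω'
  /-- the fans at exact points -/
  on1 : ∀ ω, A ω → |F.d ω iu - eu ω * F.d ω i₀ - nu ω| ≤ 1 / 2 ^ Pu
  on2 : ∀ ω, A ω → |F.d ω iN - s ω * F.d ω iu - kk ω * F.d ω i₀ - bb ω| ≤ 1 / 2 ^ PN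
  on3 : ∀ ω, A ω → |F.d ω iN - (s ω * eu ω + kk ω) * F.d ω i₀ - nN ω| ≤ 1 / 2 ^ Pu
  /-- the labels are close to the exact direction -/
  ca : ∀ j ≤ M, ∀ ω, A ω → |al j ω - eu ω| ≤ 1 / 2 ^ V j
  ct : ∀ j ≤ M, ∀ ω, A ω → |ta j ω - kk ω| ≤ 1 / 2 ^ R j
  /-- bounds -/
  bu : ∀ ω, A ω → |eu ω| ≤ 3 / 2 ∧ |s ω * eu ω + kk ω| ≤ 3 / 2
  bs : ∀ ω, A ω → |s ω| ≤ 4
  bk : ∀ ω, A ω → |kk ω| ≤ 4 + 1 / 2 ^ R M

/-- **The frames** of one family: the frames `(a i, s, t i)` of the windows, the exact frame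
`(a', s, t')`, and the straightness `al`, `nu`, `kk`, `bb` of the fans at exact points. -/
structure HFr {J : ℕ} (F : Fam 3 J) (A : F.Ω → Prop) (σ : Fin 3 → Fin 3) (N w₀ Δ r V₀ H X : ℕ)
    (Va Rt Pu PN : ℕ) (a t : ℕ → F.Ω → ℝ) (s a' t' al nu kk bb : F.Ω → ℝ) : Prop where
  bij : Function.Bijective σ
  /-- the frames of the windows -/
  fn : ∀ i ≤ N, ∀ ω ω', slam F (fw w₀ Δ i) ω = slam F (fw w₀ Δ i) ω' →
    a i ω = a i ω' ∧ s ω = s ω' ∧ t i ω = t i ω'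
  ga : ∀ i ≤ N, ∀ ω, ∃ z : ℤ, a i ω = z / 2 ^ fv V₀ r i
  gti : ∀ i ≤ N, ∀ ω, ∃ z : ℤ, t i ω = z / 2 ^ (fv V₀ r i + H)
  ca : ∀ i ≤ N, ∀ ω, A ω → |a' ω - a i ω| ≤ 4 / 2 ^ fv V₀ r i
  ct : ∀ i ≤ N, ∀ ω, A ω → |t' ω - t i ω| ≤ 4 / 2 ^ (fv V₀ r i + H)
  /-- the exact frame -/
  va' : fv V₀ r N + X ≤ Va
  rt' : fv V₀ r N + H + X ≤ Rt
  ga' : ∀ ω, ∃ z : ℤ, a' ω = z / 2 ^ Va
  gt' : ∀ ω, ∃ z : ℤ, t' ω = z / 2 ^ Rt
  bd : ∀ ω, A ω → |a' ω| ≤ 2 ∧ |s ω| ≤ 4 ∧ |t' ω| ≤ 4 + 1 / 2 ^ (H + X)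
  fp : ∀ ω ω', A ω → A ω' → Fam.pt F ω = Fam.pt F ω' → a' ω = a' ω' ∧ s ω = s ω' ∧ t' ω = t' ω' ∧
    al ω = al ω' ∧ nu ω = nu ω' ∧ kk ω = kk ω' ∧ bb ω = bb ω'
  fpi : ∀ i ≤ N, ∀ ω ω', A ω → A ω' → Fam.pt F ω = Fam.pt F ω' → a i ω = a i ω' ∧ t i ω = t i ω'
  /-- the fans at exact points -/
  on1 : ∀ ω, A ω → |F.d ω (σ 1) - al ω * F.d ω (σ 0) - nu ω| ≤ 1 / 2 ^ Pu
  on2 : ∀ ω, A ω → |F.d ω (σ 2) - s ω * F.d ω (σ 1) - kk ω * F.d ω (σ 0) - bb ω| ≤ 1 / 2 ^ PN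
  on3 : ∃ nN : F.Ω → ℝ, (∀ ω ω', A ω → A ω' → Fam.pt F ω = Fam.pt F ω' → nN ω = nN ω') ∧
    ∀ ω, A ω → |F.d ω (σ 2) - (s ω * al ω + kk ω) * F.d ω (σ 0) - nN ω| ≤ 1 / 2 ^ Pu
  be : ∀ ω, A ω → |al ω| ≤ 3 / 2 ∧ |s ω * al ω + kk ω| ≤ 3 / 2
  an1 : ∀ ω, A ω → |al ω - a' ω| ≤ 4 / 2 ^ (fv V₀ r N + X)
  an2 : ∀ ω, A ω → |kk ω - t' ω| ≤ 4 / 2 ^ (fv V₀ r N + H + X)

section core

variable {J : ℕ} {F : Fam 3 J} {A : F.Ω → Prop} {i₀ iu iN : Fin 3} {M Pu₀ PN₀ : ℕ}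
  {w V R : ℕ → ℕ} {al ta : ℕ → F.Ω → ℝ} {s eu nu kk bb nN : F.Ω → ℝ}

/-- The permutation. -/
theorem bij_of (hi : ∀ j : Fin 3, j = i₀ ∨ j = iu ∨ j = iN) :
    Function.Bijective (![i₀, iu, iN] : Fin 3 → Fin 3) := by
  obtain ⟨h1, h2, h3⟩ := three hi
  have hinj : Function.Injective (![i₀, iu, iN] : Fin 3 → Fin 3) := by
    intro x y hxy
    fin_cases x <;> fin_cases y <;> simp_all [Matrix.cons_val_zero, Matrix.cons_val_one]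
    all_goals first
      | exact absurd hxy.symm h1
      | exact absurd hxy.symm h2
      | exact absurd hxy.symm h3
      | exact absurd hxy h1
      | exact absurd hxy h2
      | exact absurd hxy h3
  exact Finite.injective_iff_bijective.1 hinj

theorem fv_mono {V₀ r N i : ℕ} (hi : i ≤ N) : fv V₀ r i ≤ fv V₀ r N := by
  unfold fv
  have := Nat.mul_le_mul_right r hi
  omega

theorem fw_mono {w₀ Δ N i : ℕ} (hi : i ≤ N) : fw w₀ Δ i ≤ fw w₀ Δ N := by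
  unfold fw
  have := Nat.mul_le_mul_right Δ hi
  omega

/-- **The frames from the labels of the grid.** -/
theorem hfr_core (h : GLb F A i₀ iu iN M Pu₀ PN₀ w V R al ta s eu nu kk bb nN)
    {N w₀ Δ r V₀ H X Va Rt Pu PN : ℕ} (jj : ℕ → ℕ) (hj : ∀ i ≤ N, jj i ≤ M)
    (hJ : fw w₀ Δ N ≤ J) (h1 : ∀ i ≤ N, w (jj i) ≤ fw w₀ Δ i) (h2 : w M ≤ w₀)
    (h3 : ∀ i ≤ N, fv V₀ r i ≤ V (jj i)) (h4 : ∀ i ≤ N, fv V₀ r i + H ≤ R (jj i))
    (h5 : fv V₀ r N + X ≤ V 0) (h6 : fv V₀ r N + H + X ≤ R 0)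
    (hVa : fv V₀ r N + X ≤ Va) (hRt : fv V₀ r N + H + X ≤ Rt) (hPu : Pu ≤ Pu₀) (hPN : PN ≤ PN₀)
    (hV2 : 2 ≤ fv V₀ r N) (hRM : H + X + 1 ≤ R M) :
    HFr F A ![i₀, iu, iN] N w₀ Δ r V₀ H X Va Rt Pu PN (fun i ω => rdg (fv V₀ r i) (al (jj i) ω))
      (fun i ω => rdg (fv V₀ r i + H) (ta (jj i) ω)) s (fun ω => rdg Va (al 0 ω))
      (fun ω => rdg Rt (ta 0 ω)) eu nu kk bb := by
  have a1 : ∀ ω, A ω → |rdg Va (al 0 ω) - eu ω| ≤ 2 / 2 ^ (fv V₀ r N + X) := by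
    intro ω hω
    have g1 := rdg_near Va (al 0 ω)
    have g2 := h.ca 0 (Nat.zero_le _) ω hω
    have g3 := inv_mono hVa
    have g4 := inv_mono h5
    have e1 : (2 : ℝ) / 2 ^ (fv V₀ r N + X) = 1 / 2 ^ (fv V₀ r N + X) + 1 / 2 ^ (fv V₀ r N + X) := by
      ring
    rw [e1]
    rw [abs_le] at g1 g2 ⊢
    constructor <;> linarith [g1.1, g1.2, g2.1, g2.2]
  have a2 : ∀ ω, A ω → |rdg Rt (ta 0 ω) - kk ω| ≤ 2 / 2 ^ (fv V₀ r N + H + X) := by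
    intro ω hω
    have g1 := rdg_near Rt (ta 0 ω)
    have g2 := h.ct 0 (Nat.zero_le _) ω hω
    have g3 := inv_mono hRt
    have g4 := inv_mono h6
    have e1 : (2 : ℝ) / 2 ^ (fv V₀ r N + H + X) =
        1 / 2 ^ (fv V₀ r N + H + X) + 1 / 2 ^ (fv V₀ r N + H + X) := by ring
    rw [e1]
    rw [abs_le] at g1 g2 ⊢
    constructor <;> linarith [g1.1, g1.2, g2.1, g2.2]
  refine ⟨bij_of h.hi, ?_, fun i _ ω => rdg_grid _ _, fun i _ ω => rdg_grid _ _, ?_, ?_, hVa, hRt,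
    fun ω => rdg_grid _ _, fun ω => rdg_grid _ _, ?_, ?_, ?_, ?_, ?_, ?_, h.bu, ?_, ?_⟩
  · intro i hi ω ω' hs
    have hw : fw w₀ Δ i ≤ J := (fw_mono hi).trans hJ
    have s1 := Pool.S6K.slam_mono (h1 i hi) hw hs
    have s2 := Pool.S6K.slam_mono (show w M ≤ fw w₀ Δ i by
      refine h2.trans ?_
      unfold fw
      omega) hw hs
    obtain ⟨k1, k2⟩ := h.fa (jj i) (hj i hi) ω ω' s1
    have k3 := h.fs ω ω' s2
    simp only [k1, k2, k3, and_self]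
  · intro i hi ω hω
    beta_reduce
    have g1 := rdg_near (fv V₀ r i) (al (jj i) ω)
    have g2 := h.ca (jj i) (hj i hi) ω hω
    have g3 := inv_mono (h3 i hi)
    have g4 := a1 ω hω
    have g5 : (2 : ℝ) / 2 ^ (fv V₀ r N + X) ≤ 2 / 2 ^ fv V₀ r i :=
      div_le_div_of_nonneg_left (by norm_num) (by positivity)
        (pow_le_pow_right₀ (by norm_num) (by have := fv_mono (V₀ := V₀) (r := r) hi; omega))
    have e1 : (4 : ℝ) / 2 ^ fv V₀ r i = 2 / 2 ^ fv V₀ r i + 1 / 2 ^ fv V₀ r i +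
      1 / 2 ^ fv V₀ r i := by ring
    rw [e1]
    rw [abs_le] at g1 g2 g4 ⊢
    constructor <;> linarith [g1.1, g1.2, g2.1, g2.2, g4.1, g4.2]
  · intro i hi ω hω
    beta_reduce
    have g1 := rdg_near (fv V₀ r i + H) (ta (jj i) ω)
    have g2 := h.ct (jj i) (hj i hi) ω hω
    have g3 := inv_mono (h4 i hi)
    have g4 := a2 ω hω
    have g5 : (2 : ℝ) / 2 ^ (fv V₀ r N + H + X) ≤ 2 / 2 ^ (fv V₀ r i + H) :=
      div_le_div_of_nonneg_left (by norm_num) (by positivity)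
        (pow_le_pow_right₀ (by norm_num) (by have := fv_mono (V₀ := V₀) (r := r) hi; omega))
    have e1 : (4 : ℝ) / 2 ^ (fv V₀ r i + H) = 2 / 2 ^ (fv V₀ r i + H) +
      1 / 2 ^ (fv V₀ r i + H) + 1 / 2 ^ (fv V₀ r i + H) := by ring
    rw [e1]
    rw [abs_le] at g1 g2 g4 ⊢
    constructor <;> linarith [g1.1, g1.2, g2.1, g2.2, g4.1, g4.2]
  · intro ω hω
    have g1 := a1 ω hω
    have g2 := a2 ω hω
    have g5 : (2 : ℝ) / 2 ^ (fv V₀ r N + X) ≤ 1 / 2 := by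
      rw [div_le_div_iff₀ (by positivity) (by norm_num)]
      calc (2 : ℝ) * 2 = 2 ^ 2 := by norm_num
        _ ≤ 2 ^ (fv V₀ r N + X) := pow_le_pow_right₀ (by norm_num) (by omega)
        _ = _ := by ring
    have g6 : (2 : ℝ) / 2 ^ (fv V₀ r N + H + X) ≤ 1 / 2 ^ (H + X) / 2 := by
      rw [div_div, div_le_div_iff₀ (by positivity) (by positivity), one_mul]
      calc (2 : ℝ) * (2 ^ (H + X) * 2) = 2 ^ (H + X + 2) := by rw [pow_add _ (H + X) 2]; ring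
        _ ≤ 2 ^ (fv V₀ r N + H + X) := pow_le_pow_right₀ (by norm_num) (by omega)
    have g7 : (1 : ℝ) / 2 ^ R M ≤ 1 / 2 ^ (H + X) / 2 := by
      rw [div_div, ← pow_succ]
      exact inv_mono hRM
    have g9 := (h.bu ω hω).1
    have g10 := h.bk ω hω
    refine ⟨?_, h.bs ω hω, ?_⟩
    · rw [abs_le] at g1 g9 ⊢
      constructor <;> linarith [g1.1, g1.2, g9.1, g9.2]
    · rw [abs_le] at g2 g10 ⊢
      constructor <;> linarith [g2.1, g2.2, g10.1, g10.2]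
  · intro ω ω' hω hω' hp
    obtain ⟨k1, k2, k3, k4, k5, -⟩ := h.fp ω ω' hω hω' hp
    obtain ⟨k6, k7⟩ := h.fpa 0 (Nat.zero_le _) ω ω' hω hω' hp
    simp only [k1, k2, k3, k4, k5, k6, k7, and_self]
  · intro i hi ω ω' hω hω' hp
    obtain ⟨k6, k7⟩ := h.fpa (jj i) (hj i hi) ω ω' hω hω' hp
    simp only [k6, k7, and_self]
  · intro ω hω
    exact (h.on1 ω hω).trans (inv_mono hPu)
  · intro ω hω
    exact (h.on2 ω hω).trans (inv_mono hPN)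
  · exact ⟨nN, fun ω ω' hω hω' hp => (h.fp ω ω' hω hω' hp).2.2.2.2.2,
      fun ω hω => (h.on3 ω hω).trans (inv_mono hPu)⟩
  · intro ω hω
    rw [abs_sub_comm]
    refine (a1 ω hω).trans (div_le_div_of_nonneg_right (by norm_num) (by positivity))
  · intro ω hω
    rw [abs_sub_comm]
    refine (a2 ω hω).trans (div_le_div_of_nonneg_right (by norm_num) (by positivity))

/-- The frames of the contexts. -/
theorem HFr.frg {σ : Fin 3 → Fin 3} {N w₀ Δ r V₀ H X Va Rt Pu PN : ℕ} {a t : ℕ → F.Ω → ℝ}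
    {s a' t' al nu kk bb : F.Ω → ℝ}
    (h : HFr F A σ N w₀ Δ r V₀ H X Va Rt Pu PN a t s a' t' al nu kk bb) :
    ∀ i ≤ N, Pool.S6N.Frg F A (fw w₀ Δ i) (fv V₀ r i) H 4 (a i) s (t i) a' s t' := by
  intro i hi
  refine ⟨h.fn i hi, h.ga i hi, Or.inl fun _ => rfl, h.gti i hi, h.ca i hi, fun ω hω => ?_,
    fun ω hω => ?_⟩
  · rw [sub_self, abs_zero]
    positivity
  · rw [sub_self, zero_mul, add_zero]
    exact h.ct i hi ω hω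

end core

end Pool.S6HF
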