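import Pool.Agent.H99.S6H.Cls

/-!
# The frames of the plateau of `R - varpi`: the case `H = 0`, the class theorem
-/

set_option autoImplicit false

namespace Pool.S6HF

open Finset Real
open Pool.Agent.H49.Ent Pool.Agent.H32.Dense Pool.STK Pool.KA Pool.KSAT Pool.K2S Pool.PB Pool.KS6
  Pool.S6C Pool.FALL Pool.S6F

section cls

variable {S : PCl 3} {a R h₁ : ℝ} {i₀ : Fin 3} {c s₂ : ℝ} {r' : ℝ → ℝ} {D : Set ℝ}
  {σ : ℝ → Row} {act rc : ℚ → ℝ} {K : Set ℝ} {W : ℝ → ℝ} {v₁ t : ℚ}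
  {e₁ Q₀ P g v₀ v a₀ α pe L e G : ℝ}

/-- **The case `H = 0`.** -/
theorem hq_zero (hC : Cs S a R h₁ i₀ c s₂ r' D σ)
    (hL : Loc S i₀ c s₂ r' D σ act K W v₁ t e₁ Q₀ P g v₀ v v a₀ α)
    (hZ : Zoh σ act rc v₁ t e₁ pe P g (W g) v₀ v a₀ α L e G) (hzero : g - W g = v₀) (N : ℕ)
    {ul us : ℚ} {M : ℕ} (hM : 0 < M) (hmesh : v * (((us - ul : ℚ) : ℝ) / M) ≤ e)
    (hul : W g - L / 2 ≤ ul) (hus : us ≤ W g + L / 2) (hlt : ul < us) :
    Clp S (fun J F A => HQ σ i₀ g (W g) v₀ v L e N ul us (hPu pe G J) (hPN P (W g) G J) F A) := by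
  classical
  have he := hZ.e0
  have heL := hZ.eL
  have hv := hZ.v0
  have hLG := hZ.LG
  have hL0 : 0 < L := by linarith only [he, heL]
  have hvL : 0 < v * L := mul_pos hv hL0
  have hGL : 10 * L + 4 * (v * L) ≤ G := by linarith only [hLG]
  have g1 := hZ.g1
  have g3 := hZ.g3
  have g5 := hZ.g5
  have g6 := hZ.g6
  have g8 := hZ.g8
  have g9 := hZ.g9
  have g10 := hZ.g10
  have gp1 := hZ.gp1
  have gp2 := hZ.gp2
  have num := fun j (hj : j ≤ M) => grid_num hZ hM hul hus hlt hj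
  have key : ∀ j < M + 1, Clp S (fun J F A => NLP i₀ 0 ⌊(pe + 3 / 4 * G) * J⌋₊
      (fun _ => ⌊(ug ul us M j : ℝ) * J⌋₊)
      (fun _ => ⌊(v₀ + v * ((ug ul us M j : ℝ) - W g) - 2 * e) * J⌋₊)
      (fun _ => ⌊((ug ul us M j : ℝ) + (v₀ + v * ((ug ul us M j : ℝ) - W g) - 2 * e)) * J⌋₊)
      (fun _ => ⌊(0 : ℝ) * J⌋₊) (fun _ => ⌊(0 : ℝ) * J⌋₊) F A) := by
    intro j hj
    have hj' : j ≤ M := by omega
    obtain ⟨q1, q2, q3, q4, q5, q6, q7, q8⟩ := num j hj'
    rw [abs_le] at q7 q8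
    exact nl_adm hC hL.adm 0 (fun _ => ug ul us M j)
      (fun _ => v₀ + v * ((ug ul us M j : ℝ) - W g) - 2 * e)
      (fun _ => (ug ul us M j : ℝ) + (v₀ + v * ((ug ul us M j : ℝ) - W g) - 2 * e)) (fun _ => 0)
      (fun _ => 0) (g := pe + 3 / 4 * G)
      (fun _ _ => le_rfl) (fun _ _ => by exact_mod_cast q3.le) (fun _ _ => by exact_mod_cast q4.le)
      (by linarith only [he, heL, hLG, hvL, gp2]) (fun _ _ => by linarith only [he, q7, q7.1]) (fun _ _ => by linarith only [hzero, he, q8, q8.1])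
      (fun _ _ => by linarith only) (fun _ _ => by linarith only [he, heL, hLG, hvL, g10, q5]) (fun _ h => absurd h (Nat.not_lt_zero _))
      (fun _ h => absurd h (Nat.not_lt_zero _)) (fun _ h => absurd h (Nat.not_lt_zero _))
      (fun _ _ => le_rfl) (fun _ _ => by linarith only [hzero, he, heL, hLG, hvL, g3, g8, g10]) (fun _ _ => by linarith only [he, heL, hLG, hvL, g5, g8, g10, q5])
  obtain ⟨x, hx⟩ : ∃ x, x = min e (min h₁ 1 / 4) := ⟨_, rfl⟩
  have hx0 : 0 < x := by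
    rw [hx]
    have := lt_min hC.h₁0 one_pos
    exact lt_min he (by linarith only [this])
  have hxe : x ≤ e := by rw [hx]; exact min_le_left _ _
  have hx1 : x ≤ h₁ / 4 := by
    rw [hx]
    refine (min_le_right _ _).trans ?_
    have := min_le_left h₁ 1
    linarith only [this]
  have hx2 : x ≤ 1 / 4 := by
    rw [hx]
    refine (min_le_right _ _).trans ?_
    have := min_le_right h₁ 1
    linarith only [this]
  have c3 := spr_clp hC hx0 hx1 hx2 (g := pe + 3 / 4 * G) (by linarith only [he, heL, hLG, hvL, g8, g10, gp1, hxe]) (by linarith only [he, heL, hLG, hvL, gp2])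
  refine Clp.step ⟨1, fun J F _ => HQ σ i₀ g (W g) v₀ v L e N ul us (hPu pe G J) (hPN P (W g) G J) F,
    fun J F _ => HQ.hered _ _ _ _ _ _ _ _ _ _ _ _ _ _⟩ fun κ hκ => ?_
  obtain ⟨J₁, hJ₁⟩ := Pool.S6K.exp_small (κ := κ) (C := 2) hκ (by norm_num)
  obtain ⟨J₂, hJ₂⟩ := exists_nat_gt (100 / e)
  refine Clp.mono (J₂ := max J₁ J₂) ((Clp.all (M + 1) key).and c3) ?_
  rintro J hJ F A ⟨hlab, -, -, -, B, hB, hPB, hspr, -⟩ hSb
  refine Pool.S6K.stb_part (hSb 0) hB (by norm_num) hPB (hJ₁ J ((le_max_left _ _).trans hJ))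
    (Pe_nonneg F.isLaw A) ?_
  intro w₀ Δ r V₀ H X hlv
  have hJr : 100 / e < J := hJ₂.trans_le (by exact_mod_cast (le_max_right _ _).trans hJ)
  have hJe : 100 < e * J := by
    rw [div_lt_iff₀ he] at hJr
    linarith only [hJr]
  have hJ0 : (0 : ℝ) ≤ J := Nat.cast_nonneg J
  have mulJ : ∀ {p q : ℝ}, p ≤ q → p * J ≤ q * J := fun h => mul_le_mul_of_nonneg_right h hJ0
  have bGL := mulJ hGL
  have beL := mulJ heL
  have b10 := mulJ g10.le
  have b9 := mulJ g9.le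
  have bxe := mulJ hxe
  have bvL : 0 ≤ v * L * J := by positivity
  -- the labels
  have hlab' : ∀ j, ∃ (ju jN : Fin 3) (e' n : (Fin 3 → ℤ) × (ℕ × F.ζ) → Fin 3 → ℝ)
      (z : F.Ω → Pln), j ≤ M → NLc F A i₀ ju jN 0 ⌊(pe + 3 / 4 * G) * J⌋₊
      (fun _ => gw ul us M J j)
      (fun _ => ⌊(v₀ + v * ((ug ul us M j : ℝ) - W g) - 2 * e) * J⌋₊)
      (fun _ => ⌊((ug ul us M j : ℝ) + (v₀ + v * ((ug ul us M j : ℝ) - W g) - 2 * e)) * J⌋₊)
      (fun _ => ⌊(0 : ℝ) * J⌋₊) e' n (fun _ => z) := by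
    intro j
    by_cases hj : j ≤ M
    · obtain ⟨ju, jN, e', n, z, h1, -⟩ := hlab j (by omega)
      refine ⟨ju, jN, e', n, z 0, fun _ => ?_⟩
      exact ⟨h1.hi, h1.ln, h1.eb, fun k hk => by
          have : k = 0 := by omega
          subst this
          exact h1.inc 0 le_rfl, fun k _ => h1.zp 0 le_rfl, fun k _ => h1.zs 0 le_rfl,
        fun k _ => h1.ze 0 le_rfl, fun k _ => h1.zc 0 le_rfl,
        fun k hk => absurd hk (Nat.not_lt_zero _)⟩
    · exact ⟨0, 0, default, default, fun _ => default, fun h => absurd h hj⟩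
  choose ju jN e' n z hN using hlab'
  obtain ⟨q, hq⟩ : ∃ q, q = ⌈x * J⌉₊ := ⟨_, rfl⟩
  rw [← hq] at hspr
  have hq2 : (q : ℝ) < x * J + 1 := by rw [hq]; exact Nat.ceil_lt_add_one (by positivity)
  obtain ⟨y, hy⟩ : ∃ y : ℕ → ℝ, y = fun j => v * ((ug ul us M j : ℝ) - W g) * J := ⟨_, rfl⟩
  have hyj : ∀ j, v * ((ug ul us M j : ℝ) - W g) * J = y j := fun j => by rw [hy]
  have hyb : ∀ j ≤ M, -(v * L * J / 2) ≤ y j ∧ y j ≤ v * L * J / 2 := fun j hj => by
    have h1 := mulJ (num j hj).2.2.2.2.1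
    have h2 := mulJ (num j hj).2.2.2.2.2.1
    rw [hyj] at h1 h2
    constructor <;> linarith
  have FV : ∀ j ≤ M, (gV (W g) v₀ v e ul us M J j : ℝ) ≤ v₀ * J + y j - 3 * (e * J) ∧
      v₀ * J + y j - 3 * (e * J) < gV (W g) v₀ v e ul us M J j + 1 := by
    intro j hj
    obtain ⟨h1, h2⟩ := hyb j hj
    have e1 : (v₀ + v * ((ug ul us M j : ℝ) - W g) - 3 * e) * J = v₀ * J + y j - 3 * (e * J) := by
      rw [← hyj]
      ring
    unfold gV
    rw [e1]
    exact fl_bd (by linarith only [hx0, hx2, hJe, bGL, beL, b10, bvL, h1])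
  have FR : ∀ j ≤ M, (gR g (W g) v e ul us M J j : ℝ) ≤ v₀ * J + y j - 8 * (e * J) := by
    intro j hj
    obtain ⟨h1, h2⟩ := hyb j hj
    have e1 : (g - W g + v * ((ug ul us M j : ℝ) - W g) - 8 * e) * J =
        v₀ * J + y j - 8 * (e * J) := by
      rw [← hyj, hzero]
      ring
    unfold gR
    rw [e1]
    exact Nat.floor_le (by linarith only [hx0, hx2, hJe, bGL, beL, b10, bvL, h1])
  have FV' : ∀ j, v₀ * J + y j - 2 * (e * J) <
      ⌊(v₀ + v * ((ug ul us M j : ℝ) - W g) - 2 * e) * J⌋₊ + 1 := by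
    intro j
    have e1 : v₀ * J + y j - 2 * (e * J) = (v₀ + v * ((ug ul us M j : ℝ) - W g) - 2 * e) * J := by
      rw [← hyj]
      ring
    rw [e1]
    exact Nat.lt_floor_add_one _
  have FT : ∀ j, v₀ * J + (ug ul us M j : ℝ) * J + y j - 2 * (e * J) <
      ⌊((ug ul us M j : ℝ) + (v₀ + v * ((ug ul us M j : ℝ) - W g) - 2 * e)) * J⌋₊ + 1 := by
    intro j
    have e1 : v₀ * J + (ug ul us M j : ℝ) * J + y j - 2 * (e * J) =
        ((ug ul us M j : ℝ) + (v₀ + v * ((ug ul us M j : ℝ) - W g) - 2 * e)) * J := by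
      rw [← hyj]
      ring
    rw [e1]
    exact Nat.lt_floor_add_one _
  have hwb : ∀ j ≤ M, (gw ul us M J j : ℝ) ≤ (ug ul us M j : ℝ) * J ∧
      (ug ul us M j : ℝ) * J < gw ul us M J j + 1 := fun j hj => by
    unfold gw
    have := (num j hj).2.2.1
    exact fl_bd (by positivity)
  have FPu : (pe + 3 / 4 * G) * J < ⌊(pe + 3 / 4 * G) * J⌋₊ + 1 := Nat.lt_floor_add_one _
  have bpe : v₀ * J + G * J ≤ pe * J := by
    have := mulJ (show v₀ + G ≤ pe by linarith only [he, heL, hLG, hvL, g8, gp1])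
    linarith only [this]
  have epe : (pe + 3 / 4 * G) * J = pe * J + 3 / 4 * (G * J) := by ring
  have hGz := glb_zero (w := gw ul us M J) (V := gV (W g) v₀ v e ul us M J) (M := M)
    (Hh := fun _ _ => ⌊(0 : ℝ) * J⌋₊) hB hspr hN
    (fun j hj => by
      have h1 := (hwb j hj).1
      have h2 := (num j hj).2.2.2.1
      have h3 : (v₁ : ℝ) ≤ 1 := by exact_mod_cast hL.adm.v1.le
      have h4 : (ug ul us M j : ℝ) * J ≤ 1 * J := mulJ (by linarith only [h2, h3])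
      have : ((gw ul us M J j : ℕ) : ℝ) ≤ ((J : ℕ) : ℝ) := by linarith only [h1, h4]
      exact_mod_cast this)
    (fun j hj => by
      have h1 := (FV j hj).1
      have h2 := FV' j
      have : ((gV (W g) v₀ v e ul us M J j + 6 : ℕ) : ℝ) <
          ((⌊(v₀ + v * ((ug ul us M j : ℝ) - W g) - 2 * e) * J⌋₊ + 1 : ℕ) : ℝ) := by
        push_cast
        linarith only [hx0, hx2, hJe, h1, h2]
      have : gV (W g) v₀ v e ul us M J j + 6 <
        ⌊(v₀ + v * ((ug ul us M j : ℝ) - W g) - 2 * e) * J⌋₊ + 1 := by exact_mod_cast this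
      omega)
    (fun j hj => by
      have h1 := (FV j hj).1
      have h2 := FT j
      have h3 := (hwb j hj).1
      have : ((gw ul us M J j + gV (W g) v₀ v e ul us M J j + 2 : ℕ) : ℝ) <
          ((⌊((ug ul us M j : ℝ) + (v₀ + v * ((ug ul us M j : ℝ) - W g) - 2 * e)) * J⌋₊ + 1 :
            ℕ) : ℝ) := by
        push_cast
        linarith only [hx0, hx2, hJe, h1, h2, h3]
      have : gw ul us M J j + gV (W g) v₀ v e ul us M J j + 2 <
        ⌊((ug ul us M j : ℝ) + (v₀ + v * ((ug ul us M j : ℝ) - W g) - 2 * e)) * J⌋₊ + 1 := by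
        exact_mod_cast this
      omega)
    (fun j hj => by
      have h1 := (FV j hj).1
      have h2 := (hyb j hj).2
      have : ((gV (W g) v₀ v e ul us M J j + q + 5 : ℕ) : ℝ) <
          ((⌊(pe + 3 / 4 * G) * J⌋₊ + 1 : ℕ) : ℝ) := by
        push_cast
        linarith only [hx0, hx2, hJe, bGL, beL, bxe, bvL, hq2, FPu, bpe, h1, h2]
      have : gV (W g) v₀ v e ul us M J j + q + 5 < ⌊(pe + 3 / 4 * G) * J⌋₊ + 1 := by
        exact_mod_cast this
      omega)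
  have hGl := hGz.low (R' := gR g (W g) v e ul us M J) (fun j hj => by
      have h1 := FR j hj
      have h2 := (FV j hj).2
      have : ((gR g (W g) v e ul us M J j : ℕ) : ℝ) <
          ((gV (W g) v₀ v e ul us M J j + 1 : ℕ) : ℝ) := by
        push_cast
        linarith only [hx0, hx2, hJe, h1, h2]
      have : gR g (W g) v e ul us M J j < gV (W g) v₀ v e ul us M J j + 1 := by
        exact_mod_cast this
      omega)
  have hV1 : ∀ j ≤ M, 1 ≤ gV (W g) v₀ v e ul us M J j := fun j hj => by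
    have h1 := (FV j hj).2
    have h2 := (hyb j hj).1
    have : ((1 : ℕ) : ℝ) < ((gV (W g) v₀ v e ul us M J j + 1 : ℕ) : ℝ) := by
      push_cast
      linarith only [hx0, hx2, hJe, bGL, beL, b10, bvL, h1, h2]
    have : 1 < gV (W g) v₀ v e ul us M J j + 1 := by exact_mod_cast this
    omega
  have nlab : ∀ j ≤ M, NL F B ![i₀, ju 0, jN 0] ⌊(ug ul us M j : ℝ) * J⌋₊
      ⌊((σ 1).rot (ug ul us M j) - 10 * e) * J⌋₊ ⌊((σ 1).th (ug ul us M j) - 10 * e) * J⌋₊
      (fun ω => zpl (ju j) (jN j) (ju 0) (jN 0) (z j ω)) := fun j hj => by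
    have hh := hN j hj
    obtain ⟨q1, q2, q3, q4, q5, q6, q7, q8⟩ := num j hj
    rw [abs_le] at q7 q8
    obtain ⟨y1, y2⟩ := hyb j hj
    obtain ⟨w1, w2⟩ := hwb j hj
    have uJ : 0 ≤ (ug ul us M j : ℝ) * J := by positivity
    have flp : ∀ x : ℝ, ∀ m : ℝ, x ≤ m → 0 ≤ m → (⌊x⌋₊ : ℝ) ≤ m := fun x m hx hm =>
      (Nat.cast_le.2 (Nat.floor_le_floor hx)).trans (Nat.floor_le hm)
    have bl : (⌊((σ 1).rot (ug ul us M j) - 10 * e) * J⌋₊ : ℝ) ≤ v₀ * J + y j - 9 * (e * J) := by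
      refine flp _ _ ?_ (by linarith only [hx0, hx2, hJe, bGL, beL, b10, bvL, y1])
      have := mulJ (show (σ 1).rot (ug ul us M j) - 10 * e ≤
        v₀ + v * ((ug ul us M j : ℝ) - W g) - 9 * e by linarith only [q7, q7.2])
      refine this.trans (le_of_eq ?_)
      rw [← hyj]
      ring
    have bP : (⌊((σ 1).th (ug ul us M j) - 10 * e) * J⌋₊ : ℝ) ≤
        (ug ul us M j : ℝ) * J + v₀ * J + y j - 9 * (e * J) := by
      refine flp _ _ ?_ (by linarith only [hx0, hx2, hJe, bGL, beL, b10, bvL, y1, w1])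
      have := mulJ (show (σ 1).th (ug ul us M j) - 10 * e ≤
        (ug ul us M j : ℝ) + v₀ + v * ((ug ul us M j : ℝ) - W g) - 9 * e by linarith only [hzero, q8, q8.2])
      refine this.trans (le_of_eq ?_)
      rw [← hyj]
      ring
    have f1 := FV' j
    have f2 := FT j
    refine nl_zpl (w := gw ul us M J j) hB hh.hi (hN 0 (Nat.zero_le _)).hi (hh.inc 0 le_rfl)
      (hh.zp 0 le_rfl) (hh.zs 0 le_rfl) (fun ω hω k hk => ?_) ?_ ?_ ?_ ?_
    · have hv2 : (1 : ℝ) / 2 ^ gV (W g) v₀ v e ul us M J j ≤ 1 / 2 := by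
        have := inv_mono (hV1 j hj)
        rw [pow_one] at this
        exact this
      have hr2 : (1 : ℝ) / 2 ^ gV (W g) v₀ v e ul us M J j ≤ 1 / 2 := hv2
      rcases (hN 0 (Nat.zero_le _)).hi k with h | h | h
      · exact absurd h hk
      · have c1 := hGz.ca j hj ω hω
        have c2 := (hGz.bu ω hω).1
        rw [h]
        rw [abs_le] at c1 c2 ⊢
        constructor <;> linarith only [hv2, c1, c2, c1.1, c1.2, c2.1, c2.2]
      · have c1 := hGz.ct j hj ω hω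
        have c2 := (hGz.bu ω hω).2
        rw [zero_mul, zero_add] at c2
        rw [h]
        rw [abs_le] at c1 c2 ⊢
        constructor <;> linarith only [hv2, c1, c2, c1.1, c1.2, c2.1, c2.2]
    · have : ((⌊((σ 1).th (ug ul us M j) - 10 * e) * J⌋₊ + 1 : ℕ) : ℝ) <
          ((⌊((ug ul us M j : ℝ) + (v₀ + v * ((ug ul us M j : ℝ) - W g) - 2 * e)) * J⌋₊ + 1 :
            ℕ) : ℝ) := by
        push_cast
        linarith only [hx0, hx2, hJe, bP, f2]
      have : ⌊((σ 1).th (ug ul us M j) - 10 * e) * J⌋₊ + 1 <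
        ⌊((ug ul us M j : ℝ) + (v₀ + v * ((ug ul us M j : ℝ) - W g) - 2 * e)) * J⌋₊ + 1 := by
        exact_mod_cast this
      omega
    · have : ((gw ul us M J j + ⌊((σ 1).rot (ug ul us M j) - 10 * e) * J⌋₊ + 1 : ℕ) : ℝ) <
          ((⌊((ug ul us M j : ℝ) + (v₀ + v * ((ug ul us M j : ℝ) - W g) - 2 * e)) * J⌋₊ + 1 :
            ℕ) : ℝ) := by
        push_cast
        linarith only [hx0, hx2, hJe, w1, bl, f2]
      have : gw ul us M J j + ⌊((σ 1).rot (ug ul us M j) - 10 * e) * J⌋₊ + 1 <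
        ⌊((ug ul us M j : ℝ) + (v₀ + v * ((ug ul us M j : ℝ) - W g) - 2 * e)) * J⌋₊ + 1 := by
        exact_mod_cast this
      omega
    · have : ((⌊((σ 1).th (ug ul us M j) - 10 * e) * J⌋₊ + 3 : ℕ) : ℝ) <
          ((gw ul us M J j + ⌊(v₀ + v * ((ug ul us M j : ℝ) - W g) - 2 * e) * J⌋₊ + 1 :
            ℕ) : ℝ) := by
        push_cast
        linarith only [hx0, hx2, hJe, w2, bP, f1]
      have : ⌊((σ 1).th (ug ul us M j) - 10 * e) * J⌋₊ + 3 <
        gw ul us M J j + ⌊(v₀ + v * ((ug ul us M j : ℝ) - W g) - 2 * e) * J⌋₊ + 1 := by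
        exact_mod_cast this
      omega
    · have : ((⌊((σ 1).rot (ug ul us M j) - 10 * e) * J⌋₊ + 3 : ℕ) : ℝ) <
          ((⌊(v₀ + v * ((ug ul us M j : ℝ) - W g) - 2 * e) * J⌋₊ + 1 : ℕ) : ℝ) := by
        push_cast
        linarith only [hx0, hx2, hJe, bl, f1]
      have : ⌊((σ 1).rot (ug ul us M j) - 10 * e) * J⌋₊ + 3 <
        ⌊(v₀ + v * ((ug ul us M j : ℝ) - W g) - 2 * e) * J⌋₊ + 1 := by exact_mod_cast this
      omega
  have nM := nlab M le_rfl
  rw [ug_last hM] at nM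
  have n0 := nlab 0 (Nat.zero_le _)
  rw [ug_zero] at n0
  obtain ⟨Va, Rt, a', t', a'', t'', k1, k2⟩ := hfr_two (σ' := σ) hZ hL.adm.v1.le hM hmesh hul
    hus hlt (by linarith only [hJe]) hGl nM n0
    (fun ω hω => ⟨rfl, neg_zero.symm, rfl⟩) (Hq := 0)
    (by
      rw [Nat.cast_zero, hzero]
      linarith only [hx0, hx2, hJe])
    (fun ω hω => ⟨rfl, by unfold zpl; ring, by
      unfold zpl
      norm_num⟩) hlv (Pu := hPu pe G J) (PN := hPN P (W g) G J)
    (Nat.floor_le_floor (mulJ (by linarith only [he, heL, hLG, hvL]))) (Nat.floor_le_floor (mulJ (by linarith only [hzero, he, heL, hLG, hvL, gp1])))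
  exact ⟨Va, Rt, _, _, _, _, _, _, _, _, _, _, _, _, rfl, k1, k2⟩

end cls

/-- **The frames of the plateau of `R - varpi` exist.** -/
theorem hfr_thm : HFrStmt := by
  intro S a R h₁ i₀ c s₂ r' D σ hC act K W v₁ t e₁ Q₀ P g v₀ v a₀ α hL rc pe L e G hZ N ul us
  by_cases hz : W g - L / 2 ≤ ul ∧ (us : ℝ) ≤ W g + L / 2 ∧ ul < us
  · obtain ⟨h1, h2, h3⟩ := hz
    obtain ⟨M, hM⟩ := exists_nat_gt (v * ((us - ul : ℚ) : ℝ) / e)
    have he := hZ.e0
    have hv := hZ.v0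
    have h4 : (0 : ℝ) < ((us - ul : ℚ) : ℝ) := by
      have : (0 : ℚ) < us - ul := by linarith only [h3]
      exact_mod_cast this
    have hM0 : 0 < M := by
      have : (0 : ℝ) < M := lt_of_le_of_lt (by positivity) hM
      exact_mod_cast this
    have hM0' : (0 : ℝ) < M := by exact_mod_cast hM0
    have hmesh : v * (((us - ul : ℚ) : ℝ) / M) ≤ e := by
      rw [div_lt_iff₀ he] at hM
      rw [← mul_div_assoc, div_le_iff₀ hM0']
      linarith only [hM]
    rcases hZ.g11.lt_or_eq with h5 | h5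
    · exact hq_pos hC hL hZ h5 N hM0 hmesh h1 h2 h3
    · exact hq_zero hC hL hZ h5.symm N hM0 hmesh h1 h2 h3
  · refine Clp.of (τ := 1) one_pos 1 fun J hJ F A _ w₀ Δ r V₀ H X hv => absurd ?_ hz
    have h1 := hv.ul1
    have h2 := hv.us0
    have h3 : (w₀ : ℝ) ≤ ((w₀ + N * Δ : ℕ) : ℝ) := by exact_mod_cast Nat.le_add_right _ _
    have hJ1 : (0 : ℝ) < J := by exact_mod_cast (show 0 < J by omega)
    have h4 : 0 < e * J := mul_pos hZ.e0 hJ1
    refine ⟨hv.ul0, hv.us1, ?_⟩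
    have h5 : (ul : ℝ) * J < us * J := by linarith only [h1, h2, h3, h4]
    have h6 : (ul : ℝ) < us := lt_of_mul_lt_mul_right h5 hJ1.le
    exact_mod_cast h6

end Pool.S6HF
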