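import Pool.Agent.H99.S6H.Sub

/-!
# The frames of the plateau of `R - varpi`: the class theorem
-/

set_option autoImplicit false

namespace Pool.S6HF

open Finset Real
open Pool.Agent.H49.Ent Pool.Agent.H32.Dense Pool.STK Pool.KA Pool.KSAT Pool.K2S Pool.PB Pool.KS6
  Pool.S6C Pool.FALL Pool.S6F

/-- The conclusion, for one event. -/
def HQ (σ : ℝ → Row) (i₀ : Fin 3) (g wr v₀ v L e : ℝ) (N : ℕ) (ul us : ℚ) (Pu PN : ℕ) {J : ℕ}
    (F : Fam 3 J) (A : F.Ω → Prop) : Prop :=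
  ∀ (w₀ Δ r V₀ H X : ℕ), HLv J N g wr v₀ v L e ul us w₀ Δ r V₀ H X →
    ∃ (Va Rt : ℕ) (sg : Fin 3 → Fin 3) (a t : ℕ → F.Ω → ℝ) (s a' t' al nu kk bb : F.Ω → ℝ)
      (zl zs : F.Ω → Pln), sg 0 = i₀ ∧
      HFr F A sg N w₀ Δ r V₀ H X Va Rt Pu PN a t s a' t' al nu kk bb ∧
      FNr F A sg σ g wr v₀ v v e (10 * e) ul us Va Rt s a' t' zl zs

theorem HQ.hered (σ : ℝ → Row) (i₀ : Fin 3) (g wr v₀ v L e : ℝ) (N : ℕ) (ul us : ℚ)
    (Pu PN : ℕ) {J : ℕ} (F : Fam 3 J) :
    Hered (HQ σ i₀ g wr v₀ v L e N ul us Pu PN F) := by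
  intro A B hB h w₀ Δ r V₀ H X hv
  obtain ⟨Va, Rt, sg, a, t, s, a', t', al, nu, kk, bb, zl, zs, h1, h2, h3⟩ := h w₀ Δ r V₀ H X hv
  exact ⟨Va, Rt, sg, a, t, s, a', t', al, nu, kk, bb, zl, zs, h1, h2.sub hB, fnr_sub h3 hB⟩

section cls

variable {S : PCl 3} {a R h₁ : ℝ} {i₀ : Fin 3} {c s₂ : ℝ} {r' : ℝ → ℝ} {D : Set ℝ}
  {σ : ℝ → Row} {act rc : ℚ → ℝ} {K : Set ℝ} {W : ℝ → ℝ} {v₁ t : ℚ}
  {e₁ Q₀ P g v₀ v a₀ α pe L e G : ℝ}

/-- The numbers of the grid. -/
theorem grid_num (hZ : Zoh σ act rc v₁ t e₁ pe P g (W g) v₀ v a₀ α L e G) {ul us : ℚ} {M : ℕ}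
    (hM : 0 < M) (hul : W g - L / 2 ≤ ul) (hus : us ≤ W g + L / 2) (hlt : ul < us) {j : ℕ}
    (hj : j ≤ M) : (ul : ℝ) ≤ ug ul us M j ∧ (ug ul us M j : ℝ) ≤ us ∧
      0 < (ug ul us M j : ℝ) ∧ (ug ul us M j : ℝ) < v₁ ∧
      -(v * L / 2) ≤ v * ((ug ul us M j : ℝ) - W g) ∧
      v * ((ug ul us M j : ℝ) - W g) ≤ v * L / 2 ∧
      |(σ 1).rot (ug ul us M j) - v₀ - v * ((ug ul us M j : ℝ) - W g)| ≤ e ∧
      |(σ 1).th (ug ul us M j) - g - (1 + v) * ((ug ul us M j : ℝ) - W g)| ≤ e := by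
  obtain ⟨h1, h2⟩ := ug_mem hM hlt.le hj
  have h1' : (ul : ℝ) ≤ ug ul us M j := by exact_mod_cast h1
  have h2' : (ug ul us M j : ℝ) ≤ us := by exact_mod_cast h2
  have he := hZ.e0
  have heL := hZ.eL
  have hv := hZ.v0
  have hLG := hZ.LG
  have h9 := hZ.g9
  have h6 := hZ.g6
  have hL : 0 < L := by linarith only [he, heL]
  have hGL : 10 * L ≤ G := by nlinarith only [hLG, hv, hL, mul_pos hv hL]
  have h3 : |(ug ul us M j : ℝ) - W g| ≤ L := by
    rw [abs_le]
    constructor <;> linarith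
  obtain ⟨k1, k2, -⟩ := hZ.aff _ h3
  refine ⟨h1', h2', by linarith only [hul, h1', he, heL, h9, hGL], by linarith only [hus, h2', he, heL, h6, hGL], ?_, ?_, k1, k2⟩
  · have : v * (-(L / 2)) ≤ v * ((ug ul us M j : ℝ) - W g) :=
      mul_le_mul_of_nonneg_left (by linarith only [hul, h1']) hv.le
    linarith only [this]
  · have : v * ((ug ul us M j : ℝ) - W g) ≤ v * (L / 2) :=
      mul_le_mul_of_nonneg_left (by linarith only [hus, h2']) hv.le
    linarith only [this]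

/-- **The case `H > 0`.** -/
theorem hq_pos (hC : Cs S a R h₁ i₀ c s₂ r' D σ)
    (hL : Loc S i₀ c s₂ r' D σ act K W v₁ t e₁ Q₀ P g v₀ v v a₀ α)
    (hZ : Zoh σ act rc v₁ t e₁ pe P g (W g) v₀ v a₀ α L e G) (hpos : v₀ < g - W g) (N : ℕ)
    {ul us : ℚ} {M : ℕ} (hM : 0 < M) (hmesh : v * (((us - ul : ℚ) : ℝ) / M) ≤ e)
    (hul : W g - L / 2 ≤ ul) (hus : us ≤ W g + L / 2) (hlt : ul < us) :
    Clp S (fun J F A => HQ σ i₀ g (W g) v₀ v L e N ul us (hPu pe G J) (hPN P (W g) G J) F A) := by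
  have he := hZ.e0
  have heL := hZ.eL
  have hv := hZ.v0
  have hLG := hZ.LG
  have hL0 : 0 < L := by linarith only [he, heL]
  have hvL : 0 < v * L := mul_pos hv hL0
  have hGL : 10 * L + 4 * (v * L) ≤ G := by linarith only [hLG]
  have hH := hZ.gH hpos
  have g1 := hZ.g1
  have g3 := hZ.g3
  have g5 := hZ.g5
  have g6 := hZ.g6
  have g8 := hZ.g8
  have g9 := hZ.g9
  have g10 := hZ.g10
  have gp1 := hZ.gp1
  have gp2 := hZ.gp2
  have num := fun j (hj : j ≤ M) => grid_num hZ hM hul hus hlt hj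
  have hstep : ∀ j, v * ((ug ul us M (j + 1) : ℝ) - W g) = v * ((ug ul us M j : ℝ) - W g) -
      v * (((us - ul : ℚ) : ℝ) / M) := by
    intro j
    rw [ug_succ]
    push_cast
    ring
  have hmp : 0 ≤ v * (((us - ul : ℚ) : ℝ) / M) := by
    have h1 : (ul : ℝ) < us := by exact_mod_cast hlt
    have h2 : (0 : ℝ) ≤ ((us - ul : ℚ) : ℝ) := by
      push_cast
      linarith only [h1]
    positivity
  have key := nl_adm hC hL.adm M (ug ul us M) (fun j => v₀ + v * ((ug ul us M j : ℝ) - W g) - 2 * e)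
    (fun j => g + (1 + v) * ((ug ul us M j : ℝ) - W g) - 2 * e) (fun _ => g - W g - v₀ - 5 * e)
    (fun _ => P - W g + 3 / 4 * G) (g := pe + 3 / 4 * G)
    (fun j hj => by
      rw [ug_succ]
      have hM0 : (0 : ℚ) < M := by exact_mod_cast hM
      have : 0 ≤ (us - ul) / M := div_nonneg (by linarith only [hlt]) hM0.le
      linarith only [this])
    (fun j hj => by
      have := (num j hj).2.2.1
      exact_mod_cast this.le)
    (fun j hj => by
      have := (num j hj).2.2.2.1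
      exact_mod_cast this.le)
    (by linarith only [he, heL, hLG, hvL, gp2])
    (fun j hj => by
      have := (abs_le.1 (num j hj).2.2.2.2.2.2.1).1
      linarith only [he, this])
    (fun j hj => by
      have := (abs_le.1 (num j hj).2.2.2.2.2.2.2).1
      linarith only [he, this])
    (fun j hj => by linarith only [he, heL, hLG, hvL, hH])
    (fun j hj => by
      have := (num j hj).2.2.2.2.1
      linarith only [he, heL, hLG, hvL, hH, g10, this])
    (fun j hj => by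
      have h1 := (abs_le.1 (num j hj.le).2.2.2.2.2.2.1).2
      have h2 := (num j hj.le).2.2.2.2.2.1
      linarith only [he, heL, hLG, hvL, g8, gp1, gp2, h1, h2])
    (fun j hj => by
      have h1 := (abs_le.1 (num j hj.le).2.2.2.2.2.2.1).2
      have h2 := hstep j
      constructor
      · linarith only [he, heL, hLG, hvL, hH, h1]
      · linarith only [hmesh, he, heL, hLG, hvL, hH, h1, h2])
    (fun j hj => by
      have h1 := (abs_le.1 (num j hj.le).2.2.2.2.2.2.1).2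
      have h2 := hstep j
      constructor
      · linarith only [he, h1]
      · linarith only [hmesh, he, h1, h2])
    (fun j hj => by linarith only [he, heL, hLG, hvL, hH, g8, g10])
    (fun j hj => by linarith only [he, heL, hLG, hvL, g3])
    (fun j hj => by
      have h1 := (num j hj).2.2.2.2.1
      linarith only [he, heL, hLG, hvL, g5, g8, h1])
  obtain ⟨m, hm⟩ : ∃ m : ℕ, M ≤ 2 ^ m := ⟨M, Nat.lt_two_pow_self.le⟩
  obtain ⟨J₂, hJ₂⟩ := exists_nat_gt ((100 + m) / e)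
  refine Clp.mono (J₂ := J₂) key ?_
  rintro J hJ F A ⟨iu, iN, e', n, z, hN, hS⟩ w₀ Δ r V₀ H X hlv
  have hJr : (100 + m) / e < J := hJ₂.trans_le (by exact_mod_cast hJ)
  have hJe : 100 + m < e * J := by
    rw [div_lt_iff₀ he] at hJr
    linarith only [hJr]
  have hm0 : (0 : ℝ) ≤ m := Nat.cast_nonneg m
  have hJ0 : (0 : ℝ) ≤ J := Nat.cast_nonneg J
  have mulJ : ∀ {p q : ℝ}, p ≤ q → p * J ≤ q * J := fun h => mul_le_mul_of_nonneg_right h hJ0
  have bGL := mulJ hGL
  have beL := mulJ heL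
  have bH := mulJ hH.le
  have b10 := mulJ g10.le
  have b9 := mulJ g9.le
  have bvL : 0 ≤ v * L * J := by positivity
  obtain ⟨Hm, hHm⟩ : ∃ Hm : ℕ, Hm = ⌊(g - W g - v₀ - 5 * e) * J⌋₊ := ⟨_, rfl⟩
  have nHm : 0 ≤ (g - W g - v₀ - 5 * e) * J := by
    have : 0 ≤ g - W g - v₀ - 5 * e := by linarith only [he, heL, hLG, hvL, hH]
    positivity
  obtain ⟨fH1, fH2⟩ := fl_bd nHm
  rw [← hHm] at fH1 fH2
  obtain ⟨y, hy⟩ : ∃ y : ℕ → ℝ, y = fun j => v * ((ug ul us M j : ℝ) - W g) * J := ⟨_, rfl⟩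
  have hyj : ∀ j, v * ((ug ul us M j : ℝ) - W g) * J = y j := fun j => by rw [hy]
  have hyb : ∀ j ≤ M, -(v * L * J / 2) ≤ y j ∧ y j ≤ v * L * J / 2 := fun j hj => by
    have h1 := mulJ (num j hj).2.2.2.2.1
    have h2 := mulJ (num j hj).2.2.2.2.2.1
    rw [hyj] at h1 h2
    constructor <;> linarith
  have FV : ∀ j ≤ M, (gV (W g) v₀ v e ul us M J j : ℝ) ≤ v₀ * J + y j - 3 * (e * J) := by
    intro j hj
    obtain ⟨h1, h2⟩ := hyb j hj
    have e1 : (v₀ + v * ((ug ul us M j : ℝ) - W g) - 3 * e) * J = v₀ * J + y j - 3 * (e * J) := by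
      rw [← hyj]
      ring
    unfold gV
    rw [e1]
    exact Nat.floor_le (by linarith only [hJe, bGL, beL, b10, bvL, h1])
  have FR : ∀ j ≤ M, (gR g (W g) v e ul us M J j : ℝ) ≤ (g - W g) * J + y j - 8 * (e * J) := by
    intro j hj
    obtain ⟨h1, h2⟩ := hyb j hj
    have e1 : (g - W g + v * ((ug ul us M j : ℝ) - W g) - 8 * e) * J =
        (g - W g) * J + y j - 8 * (e * J) := by
      rw [← hyj]
      ring
    unfold gR
    rw [e1]
    exact Nat.floor_le (by linarith only [hJe, bGL, beL, bH, b10, bvL, h1])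
  have FV' : ∀ j, v₀ * J + y j - 2 * (e * J) <
      ⌊(v₀ + v * ((ug ul us M j : ℝ) - W g) - 2 * e) * J⌋₊ + 1 := by
    intro j
    have e1 : v₀ * J + y j - 2 * (e * J) = (v₀ + v * ((ug ul us M j : ℝ) - W g) - 2 * e) * J := by
      rw [← hyj]
      ring
    rw [e1]
    exact Nat.lt_floor_add_one _
  have FT : ∀ j, (g - W g) * J + (ug ul us M j : ℝ) * J + y j - 2 * (e * J) <
      ⌊(g + (1 + v) * ((ug ul us M j : ℝ) - W g) - 2 * e) * J⌋₊ + 1 := by
    intro j
    have e1 : (g - W g) * J + (ug ul us M j : ℝ) * J + y j - 2 * (e * J) =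
        (g + (1 + v) * ((ug ul us M j : ℝ) - W g) - 2 * e) * J := by
      rw [← hyj]
      ring
    rw [e1]
    exact Nat.lt_floor_add_one _
  have e11 : (g - W g - v₀ - 5 * e) * J = (g - W g) * J - v₀ * J - 5 * (e * J) := by ring
  have hwb : ∀ j ≤ M, (gw ul us M J j : ℝ) ≤ (ug ul us M j : ℝ) * J := fun j hj => by
    unfold gw
    have := (num j hj).2.2.1
    exact Nat.floor_le (by positivity)
  obtain ⟨bb, hG⟩ := glb_pos (w := gw ul us M J) hN (hS M le_rfl)
    (fun j hj => by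
      have h1 := hwb j hj
      have h2 := (num j hj).2.2.2.1
      have h3 : (v₁ : ℝ) ≤ 1 := by exact_mod_cast hL.adm.v1.le
      have h4 : (ug ul us M j : ℝ) * J ≤ 1 * J := mulJ (by linarith only [h2, h3])
      have : ((gw ul us M J j : ℕ) : ℝ) ≤ ((J : ℕ) : ℝ) := by linarith only [h1, h4]
      exact_mod_cast this)
    (fun j hj => by
      refine Nat.floor_le_floor (mulJ ?_)
      have h1 := (num j hj).1
      rw [ug_last hM]
      exact h1) (Hm := Hm) (m := m)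
    (fun b _ => by rw [hHm]) hm (V := gV (W g) v₀ v e ul us M J) (R := gR g (W g) v e ul us M J)
    (fun j hj => by
      have h1 := FV j hj
      have h2 := FV' j
      have : ((gV (W g) v₀ v e ul us M J j + 2 : ℕ) : ℝ) <
          ((⌊(v₀ + v * ((ug ul us M j : ℝ) - W g) - 2 * e) * J⌋₊ + 1 : ℕ) : ℝ) := by
        push_cast
        linarith only [hJe, h1, h2]
      have : gV (W g) v₀ v e ul us M J j + 2 <
        ⌊(v₀ + v * ((ug ul us M j : ℝ) - W g) - 2 * e) * J⌋₊ + 1 := by exact_mod_cast this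
      omega)
    (fun j hj => by
      have h1 := FR j hj
      have h2 := FT j
      have h3 := hwb j hj
      have : ((gw ul us M J j + gR g (W g) v e ul us M J j + 1 : ℕ) : ℝ) <
          ((⌊(g + (1 + v) * ((ug ul us M j : ℝ) - W g) - 2 * e) * J⌋₊ + 1 : ℕ) : ℝ) := by
        push_cast
        linarith only [hJe, h1, h2, h3]
      have : gw ul us M J j + gR g (W g) v e ul us M J j + 1 <
        ⌊(g + (1 + v) * ((ug ul us M j : ℝ) - W g) - 2 * e) * J⌋₊ + 1 := by exact_mod_cast this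
      omega)
    (fun j hj => by
      have h1 := FR j hj
      have h2 := FV' j
      have : ((gR g (W g) v e ul us M J j + m + 3 : ℕ) : ℝ) <
          ((Hm + ⌊(v₀ + v * ((ug ul us M j : ℝ) - W g) - 2 * e) * J⌋₊ + 1 : ℕ) : ℝ) := by
        push_cast
        linarith only [hJe, fH2, h1, h2]
      have : gR g (W g) v e ul us M J j + m + 3 <
        Hm + ⌊(v₀ + v * ((ug ul us M j : ℝ) - W g) - 2 * e) * J⌋₊ + 1 := by exact_mod_cast this
      omega)
  have hmH : m ≤ Hm := by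
    have : ((m : ℕ) : ℝ) < ((Hm + 1 : ℕ) : ℝ) := by
      push_cast
      linarith only [hJe, bGL, beL, bH, bvL, fH2]
    have : m < Hm + 1 := by exact_mod_cast this
    omega
  have hLG' : 0 < G := by linarith only [he, heL, hLG, hvL]
  have nlab : ∀ j ≤ M, NL F A ![i₀, iu, iN] ⌊(ug ul us M j : ℝ) * J⌋₊
      ⌊((σ 1).rot (ug ul us M j) - 10 * e) * J⌋₊ ⌊((σ 1).th (ug ul us M j) - 10 * e) * J⌋₊
      (z j) := fun j hj => by
    refine nl_of_nlc hN hj rfl (Nat.floor_le_floor (mulJ ?_)) (Nat.floor_le_floor (mulJ ?_))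
    · have := (abs_le.1 (num j hj).2.2.2.2.2.2.1).2
      linarith only [he, this]
    · have := (abs_le.1 (num j hj).2.2.2.2.2.2.2).2
      linarith only [he, this]
  have nM := nlab M le_rfl
  rw [ug_last hM] at nM
  have n0 := nlab 0 (Nat.zero_le _)
  rw [ug_zero] at n0
  obtain ⟨Va, Rt, a', t', a'', t'', k1, k2⟩ := hfr_two (σ' := σ) hZ hL.adm.v1.le hM hmesh hul
    hus hlt (by linarith only [hJe]) hG (zl := z M) (zs := z 0) nM n0
    (fun ω hω => ⟨rfl, by unfold sl; ring, by unfold tj sl; ring⟩) (Hq := Hm - m)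
    (by
      rw [Nat.cast_sub hmH]
      have e12 : (g - W g - v₀) * J = (g - W g) * J - v₀ * J := by ring
      rw [e12]
      linarith only [hJe, fH2])
    (fun ω hω => ⟨rfl, rfl, by
      have h3 := hN.s_near (Nat.zero_le M) le_rfl (M := Hm) (fun b _ _ => by rw [hHm]) hω
      have e13 : (z 0 ω).s + sl M z ω = -((z M ω).s - (z 0 ω).s) := by
        unfold sl
        ring
      rw [e13, abs_neg]
      refine h3.trans ?_
      rw [Nat.sub_zero, div_le_div_iff₀ (by positivity) (by positivity), one_mul]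
      have hm' : (M : ℝ) ≤ 2 ^ m := by exact_mod_cast hm
      calc (M : ℝ) * 2 ^ (Hm - m) ≤ 2 ^ m * 2 ^ (Hm - m) :=
            mul_le_mul_of_nonneg_right hm' (by positivity)
        _ = 2 ^ Hm := by
            rw [← pow_add]
            congr 1
            omega⟩) hlv (Pu := hPu pe G J) (PN := hPN P (W g) G J)
    (Nat.floor_le_floor (mulJ (by linarith only [he, heL, hLG, hvL]))) (Nat.floor_le_floor (mulJ (by linarith only [he, heL, hLG, hvL])))
  exact ⟨Va, Rt, _, _, _, _, _, _, _, _, _, _, _, _, rfl, k1, k2⟩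

end cls

end Pool.S6HF
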