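import Pool.Agent.H99.S6H.Cls0
import Pool.Agent.H88.S6F.Vs

/-!
# The frames of the plateau as frames of the falling case; the digits of the exact frame
-/

set_option autoImplicit false

namespace Pool.S6HF

open Finset Real
open Pool.Agent.H49.Ent Pool.Agent.H32.Dense Pool.STK Pool.KA Pool.KSAT Pool.K2S Pool.PB Pool.KS6
  Pool.S6C Pool.FALL Pool.S6F Pool.S6N

variable {J : ℕ} {F : Fam 3 J} {A : F.Ω → Prop} {σ : Fin 3 → Fin 3}
  {N w₀ Δ r V₀ H X Va Rt Pu PN : ℕ} {a t : ℕ → F.Ω → ℝ} {s a' t' al nu kk bb : F.Ω → ℝ}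

/-- The frames of the plateau are frames of the falling case. -/
theorem HFr.ffr (h : HFr F A σ N w₀ Δ r V₀ H X Va Rt Pu PN a t s a' t' al nu kk bb) :
    FFr F A σ N w₀ Δ r V₀ H X Va Rt Pu PN a t s a' t' al nu kk bb :=
  ⟨h.bij, h.fn, h.ga, h.gti, h.ca, h.ct, by have := h.va'; omega, h.rt', h.ga', h.gt', h.bd, h.fp,
    h.on1, h.on2, fun ω hω => (h.an1 ω hω).trans (div_le_div_of_nonneg_left (by norm_num)
      (by positivity) (pow_le_pow_right₀ (by norm_num) (Nat.le_add_right _ _))), h.an2⟩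

/-- **The digits of the exact frame.** -/
theorem HFr.dig (h : HFr F A σ N w₀ Δ r V₀ H X Va Rt Pu PN a t s a' t' al nu kk bb) {q i : ℕ}
    (hi : i ≤ N) (hQ : IsLaw (Pool.Agent.H49.Ent.cond F.p A True)) :
    CH (Pool.Agent.H49.Ent.cond F.p A True) (fun ω => (a' ω, s ω, t' ω))
      (fun ω => (ctx F σ (fw w₀ Δ i) q (fv V₀ r i) H (a i) s (t i) ω, F.T ω)) ≤
      (((Va - V₀ : ℕ) : ℝ) + ((Rt - (V₀ + H) : ℕ) : ℝ)) * Real.log 2 + 2 * Real.log 9 :=
  h.ffr.dig hi hQ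

/-- The digits of the exact frame, with the integer levels. -/
theorem HFr.dig_lv {σ' : ℝ → Row} {g wr v₀ v L e : ℝ} {ul us : ℚ} {zl zs : F.Ω → Pln}
    (h : HFr F A σ N w₀ Δ r V₀ H X Va Rt Pu PN a t s a' t' al nu kk bb)
    (hN : FNr F A σ σ' g wr v₀ v v e (10 * e) ul us Va Rt s a' t' zl zs)
    (hv : HLv J N g wr v₀ v L e ul us w₀ Δ r V₀ H X) (hv0 : 0 ≤ v) (he : 0 ≤ e)
    {C₀ : ℝ} (hus : |(us : ℝ) - wr| ≤ C₀) (hul : |(ul : ℝ) - wr| ≤ C₀) {q i : ℕ}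
    (hi : i ≤ N) (hQ : IsLaw (Pool.Agent.H49.Ent.cond F.p A True)) :
    CH (Pool.Agent.H49.Ent.cond F.p A True) (fun ω => (a' ω, s ω, t' ω))
      (fun ω => (ctx F σ (fw w₀ Δ i) q (fv V₀ r i) H (a i) s (t i) ω, F.T ω)) ≤
      (4 * v * C₀ + 84 * e) * J + 2 * Real.log 9 := by
  refine (h.dig hi hQ).trans ?_
  have hl0 : 0 ≤ Real.log 2 := Real.log_nonneg (by norm_num)
  have hl1 : Real.log 2 ≤ 1 := by
    have := Real.log_two_lt_d9
    linarith
  have hJ0 : (0 : ℝ) ≤ J := Nat.cast_nonneg J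
  obtain ⟨u1, u2⟩ := abs_le.1 hus
  obtain ⟨u3, u4⟩ := abs_le.1 hul
  have hva := h.va'
  have hrt := h.rt'
  have hV0 : V₀ ≤ fv V₀ r N := by
    unfold fv
    omega
  have k1 := hN.vb
  have k2 := hN.rb
  have k3 := hv.vt' 0 (Nat.zero_le _)
  have k4 := hv.rt' 0 (Nat.zero_le _)
  have k5 := hv.ul1
  simp only [Nat.zero_mul, Nat.add_zero] at k3 k4
  push_cast at k3 k4
  have mulJ : ∀ {p q : ℝ}, p ≤ q → p * J ≤ q * J := fun h => mul_le_mul_of_nonneg_right h hJ0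
  have eJ : 0 ≤ e * J := by positivity
  have w1 : v * (wr * J - C₀ * J) ≤ v * w₀ := by
    refine mul_le_mul_of_nonneg_left ?_ hv0
    have := mulJ (show wr - C₀ ≤ ul by linarith)
    linarith
  have w2 : v * ((us - wr) * J) ≤ v * (C₀ * J) :=
    mul_le_mul_of_nonneg_left (mulJ u2) hv0
  have e1 : (((Va - V₀ : ℕ) : ℝ)) ≤ 2 * v * C₀ * J + 32 * (e * J) := by
    rw [Nat.cast_sub (by omega)]
    have e2 : (v₀ + v * ((us : ℝ) - wr) + 2 * e) * J =
        v₀ * J + v * ((us - wr) * J) + 2 * (e * J) := by ring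
    rw [e2] at k1
    have e3 : v * ((w₀ : ℝ) - wr * J) = v * w₀ - v * (wr * J) := by ring
    rw [e3] at k3
    have e4 : v * (wr * J - C₀ * J) = v * (wr * J) - v * (C₀ * J) := by ring
    rw [e4] at w1
    have e5 : 2 * v * C₀ * J = v * (C₀ * J) + v * (C₀ * J) := by ring
    rw [e5]
    linarith
  have e2 : (((Rt - (V₀ + H) : ℕ) : ℝ)) ≤ 2 * v * C₀ * J + 52 * (e * J) := by
    rw [Nat.cast_sub (by omega)]
    have e2 : (g - wr + v * ((us : ℝ) - wr) + 2 * e) * J =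
        (g - wr) * J + v * ((us - wr) * J) + 2 * (e * J) := by ring
    rw [e2] at k2
    have e3 : v * ((w₀ : ℝ) - wr * J) = v * w₀ - v * (wr * J) := by ring
    rw [e3] at k4
    have e4 : v * (wr * J - C₀ * J) = v * (wr * J) - v * (C₀ * J) := by ring
    rw [e4] at w1
    have e5 : 2 * v * C₀ * J = v * (C₀ * J) + v * (C₀ * J) := by ring
    rw [e5]
    push_cast
    linarith
  have e3 : ((((Va - V₀ : ℕ) : ℝ)) + ((Rt - (V₀ + H) : ℕ) : ℝ)) * Real.log 2 ≤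
      ((((Va - V₀ : ℕ) : ℝ)) + ((Rt - (V₀ + H) : ℕ) : ℝ)) * 1 :=
    mul_le_mul_of_nonneg_left hl1 (by positivity)
  have e4 : (4 * v * C₀ + 84 * e) * J = (2 * v * C₀ * J + 32 * (e * J)) +
    (2 * v * C₀ * J + 52 * (e * J)) := by ring
  rw [e4]
  linarith

end Pool.S6HF
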