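import Pool.Agent.H99.S6H.Core

/-!
# The labels of the grid from natural labels in one normal form
-/

set_option autoImplicit false

namespace Pool.S6HF

open Finset Real
open Pool.Agent.H49.Ent Pool.Agent.H32.Dense Pool.STK Pool.KA Pool.KSAT Pool.K2S Pool.PB Pool.KS6
  Pool.S6C Pool.FALL Pool.S6F

section pos

variable {J : ℕ} {F : Fam 3 J} {A : F.Ω → Prop} {i₀ iu iN : Fin 3} {M Pu G : ℕ}
  {w V' T Hh : ℕ → ℕ} {e n : (Fin 3 → ℤ) × (ℕ × F.ζ) → Fin 3 → ℝ} {z : ℕ → F.Ω → Pln}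

/-- The slope. -/
def sl {Ω : Type} (M : ℕ) (z : ℕ → Ω → Pln) (ω : Ω) : ℝ := -(z M ω).s

/-- The label of the direction in the normal coordinate. -/
noncomputable def tj {Ω : Type} (M : ℕ) (z : ℕ → Ω → Pln) (j : ℕ) (ω : Ω) : ℝ :=
  -(z j ω).c + (-(z j ω).s - sl M z ω) * (z j ω).e

/-- The error of the label of the direction in the normal coordinate. -/
theorem tj_near (h : NLc F A i₀ iu iN M Pu w V' T Hh e n z) {Hm : ℕ} (hH : ∀ b < M, Hm ≤ Hh b)
    {j : ℕ} (hj : j ≤ M) {ω : F.Ω} (hω : A ω) :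
    |tj M z j ω - (e (Fam.pt F ω) iN - sl M z ω * e (Fam.pt F ω) iu)| ≤
      2 ^ w j / 2 ^ T j + M / 2 ^ Hm * (4 / 2 ^ V' j) := by
  have h1 := h.zc j hj ω hω
  have h2 := h.ze j hj ω hω
  have h3 := h.s_near hj le_rfl (M := Hm) (fun b _ hb => hH b hb) hω
  have h4 : (((M - j : ℕ) : ℝ)) / 2 ^ Hm ≤ M / 2 ^ Hm := by
    refine div_le_div_of_nonneg_right ?_ (by positivity)
    exact_mod_cast Nat.sub_le M j
  have e1 : tj M z j ω - (e (Fam.pt F ω) iN - sl M z ω * e (Fam.pt F ω) iu) =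
      -((z j ω).c + (z j ω).s * e (Fam.pt F ω) iu + e (Fam.pt F ω) iN) +
        ((z M ω).s - (z j ω).s) * ((z j ω).e - e (Fam.pt F ω) iu) := by
    unfold tj sl
    ring
  rw [e1]
  refine (abs_add_le _ _).trans ?_
  rw [abs_neg, abs_mul]
  exact add_le_add h1 (mul_le_mul (h3.trans h4) h2 (abs_nonneg _) (by positivity))

/-- **The labels of the grid**, from natural labels. -/
theorem glb_pos (h : NLc F A i₀ iu iN M Pu w V' T Hh e n z)
    (hS : SnG F A i₀ iu iN G e (z M)) (hwJ : ∀ j ≤ M, w j ≤ J)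
    (hwd : ∀ j ≤ M, w M ≤ w j) {Hm m : ℕ}
    (hH : ∀ b < M, Hm ≤ Hh b) (hm : M ≤ 2 ^ m) {V R : ℕ → ℕ} (hV : ∀ j ≤ M, V j + 2 ≤ V' j)
    (hR : ∀ j ≤ M, w j + R j + 1 ≤ T j) (hR' : ∀ j ≤ M, R j + m + 3 ≤ Hm + V' j)
 : ∃ bb : F.Ω → ℝ,
    GLb F A i₀ iu iN M Pu G w V R (fun j ω => (z j ω).e) (tj M z) (sl M z)
      (fun ω => e (Fam.pt F ω) iu) (fun ω => n (Fam.pt F ω) iu)
      (fun ω => e (Fam.pt F ω) iN - sl M z ω * e (Fam.pt F ω) iu) bb
      (fun ω => n (Fam.pt F ω) iN) := by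
  obtain ⟨b, hb⟩ := hS
  have hzp : ∀ j ≤ M, ∀ ω ω', A ω → A ω' → Fam.pt F ω = Fam.pt F ω' → z j ω = z j ω' := by
    intro j hj ω ω' hω hω' hp
    obtain ⟨φ, hφ⟩ := h.zp j hj
    rw [hφ ω hω, hφ ω' hω', show ptq F J ω = ptq F J ω' from hp]
  have hzs : ∀ j ≤ M, ∀ ω ω', slam F (w j) ω = slam F (w j) ω' → z j ω = z j ω' := by
    intro j hj ω ω' hs
    obtain ⟨ψ, hψ⟩ := h.zs j hj
    rw [hψ, hψ, hs]
  have hct : ∀ j ≤ M, ∀ ω, A ω →
      |tj M z j ω - (e (Fam.pt F ω) iN - sl M z ω * e (Fam.pt F ω) iu)| ≤ 1 / 2 ^ R j := by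
    intro j hj ω hω
    refine (tj_near h hH hj hω).trans ?_
    have k1 : (2 : ℝ) ^ w j / 2 ^ T j ≤ 1 / 2 ^ (R j + 1) := by
      rw [div_le_div_iff₀ (by positivity) (by positivity), one_mul, ← pow_add]
      exact pow_le_pow_right₀ (by norm_num) (by have := hR j hj; omega)
    have k2 : (M : ℝ) / 2 ^ Hm * (4 / 2 ^ V' j) ≤ 1 / 2 ^ (R j + 1) := by
      have k3 : (M : ℝ) ≤ 2 ^ m := by exact_mod_cast hm
      rw [div_mul_div_comm, div_le_div_iff₀ (by positivity) (by positivity), one_mul, ← pow_add]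
      calc (M : ℝ) * 4 * 2 ^ (R j + 1) ≤ 2 ^ m * 4 * 2 ^ (R j + 1) :=
            mul_le_mul_of_nonneg_right (mul_le_mul_of_nonneg_right k3 (by norm_num))
              (by positivity)
        _ = 2 ^ (m + 2 + (R j + 1)) := by
            rw [pow_add 2 (m + 2), pow_add 2 m 2]
            norm_num
        _ ≤ 2 ^ (Hm + V' j) := pow_le_pow_right₀ (by norm_num) (by have := hR' j hj; omega)
    have e1 : (1 : ℝ) / 2 ^ R j = 1 / 2 ^ (R j + 1) + 1 / 2 ^ (R j + 1) := by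
      rw [pow_succ]
      field_simp
      norm_num
    rw [e1]
    exact add_le_add k1 k2
  have hww : ∀ j ≤ M, w M ≤ w j := hwd
  refine ⟨fun ω => b (Fam.pt F ω), h.hi, ?_, ?_, hwJ, ?_, ?_, ?_, ?_, ?_, ?_, hct, ?_, ?_, ?_⟩
  · intro j hj ω ω' hs
    have s1 := hzs j hj ω ω' hs
    have s2 := hzs M le_rfl ω ω' (Pool.S6K.slam_mono (hww j hj) (hwJ j hj) hs)
    unfold tj sl
    simp only [s1, s2, and_self]
  · intro ω ω' hs
    unfold sl
    rw [hzs M le_rfl ω ω' hs]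
  · intro ω ω' hω hω' hp
    have s2 := hzp M le_rfl ω ω' hω hω' hp
    unfold sl
    simp only [s2, hp, and_self]
  · intro j hj ω ω' hω hω' hp
    have s1 := hzp j hj ω ω' hω hω' hp
    have s2 := hzp M le_rfl ω ω' hω hω' hp
    unfold tj sl
    simp only [s1, s2, and_self]
  · intro ω hω
    exact h.ln ω hω iu
  · intro ω hω
    have h1 := hb ω hω
    have e1 : F.d ω iN - sl M z ω * F.d ω iu -
        (e (Fam.pt F ω) iN - sl M z ω * e (Fam.pt F ω) iu) * F.d ω i₀ - b (Fam.pt F ω) =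
        (F.d ω iN - e (Fam.pt F ω) iN * F.d ω i₀) +
      (z M ω).s * (F.d ω iu - e (Fam.pt F ω) iu * F.d ω i₀) - b (Fam.pt F ω) := by
      unfold sl
      ring
    rw [e1]
    exact h1
  · intro ω hω
    have h1 := h.ln ω hω iN
    have e1 : sl M z ω * e (Fam.pt F ω) iu +
        (e (Fam.pt F ω) iN - sl M z ω * e (Fam.pt F ω) iu) = e (Fam.pt F ω) iN := by ring
    rw [e1]
    exact h1
  · intro j hj ω hω
    refine (h.ze j hj ω hω).trans ?_
    rw [div_le_div_iff₀ (by positivity) (by positivity), one_mul]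
    calc (4 : ℝ) * 2 ^ V j = 2 ^ (V j + 2) := by rw [pow_add]; norm_num; ring
      _ ≤ 2 ^ V' j := pow_le_pow_right₀ (by norm_num) (hV j hj)
  · intro ω hω
    have e1 : sl M z ω * e (Fam.pt F ω) iu +
        (e (Fam.pt F ω) iN - sl M z ω * e (Fam.pt F ω) iu) = e (Fam.pt F ω) iN := by ring
    rw [e1]
    exact ⟨(h.eb ω hω iu).trans (by norm_num), (h.eb ω hω iN).trans (by norm_num)⟩
  · intro ω hω
    unfold sl
    rw [abs_neg]
    exact (h.inc M le_rfl ω hω).s_le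
  · intro ω hω
    have g1 := hct M le_rfl ω hω
    have g2 := (h.inc M le_rfl ω hω).c_le
    have e1 : tj M z M ω = -(z M ω).c := by
      unfold tj sl
      ring
    rw [e1] at g1
    rw [abs_le] at g1 g2 ⊢
    constructor <;> linarith [g1.1, g1.2, g2.1, g2.2]

end pos

end Pool.S6HF
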