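import Pool.Agent.H99.S6H.Two

/-!
# Restriction of the frames to subevents, natural labels
-/

set_option autoImplicit false

namespace Pool.S6HF

open Finset Real
open Pool.Agent.H49.Ent Pool.Agent.H32.Dense Pool.STK Pool.KA Pool.KSAT Pool.K2S Pool.PB Pool.KS6
  Pool.S6C Pool.FALL Pool.S6F

section sub

variable {J : ℕ} {F : Fam 3 J} {A B : F.Ω → Prop}

theorem HFr.sub {σ : Fin 3 → Fin 3} {N w₀ Δ r V₀ H X Va Rt Pu PN : ℕ} {a t : ℕ → F.Ω → ℝ}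
    {s a' t' al nu kk bb : F.Ω → ℝ}
    (h : HFr F A σ N w₀ Δ r V₀ H X Va Rt Pu PN a t s a' t' al nu kk bb) (hB : Sub B A) :
    HFr F B σ N w₀ Δ r V₀ H X Va Rt Pu PN a t s a' t' al nu kk bb := by
  obtain ⟨nN, g1, g2⟩ := h.on3
  exact ⟨h.bij, h.fn, h.ga, h.gti, fun i hi ω hω => h.ca i hi ω (hB _ hω),
    fun i hi ω hω => h.ct i hi ω (hB _ hω), h.va', h.rt', h.ga', h.gt',
    fun ω hω => h.bd ω (hB _ hω), fun ω ω' hω hω' => h.fp ω ω' (hB _ hω) (hB _ hω'),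
    fun i hi ω ω' hω hω' => h.fpi i hi ω ω' (hB _ hω) (hB _ hω'), fun ω hω => h.on1 ω (hB _ hω),
    fun ω hω => h.on2 ω (hB _ hω), ⟨nN, fun ω ω' hω hω' => g1 ω ω' (hB _ hω) (hB _ hω'),
      fun ω hω => g2 ω (hB _ hω)⟩, fun ω hω => h.be ω (hB _ hω), fun ω hω => h.an1 ω (hB _ hω),
    fun ω hω => h.an2 ω (hB _ hω)⟩

theorem nl_sub {σ : Fin 3 → Fin 3} {w lam P : ℕ} {z : F.Ω → Pln} (h : NL F A σ w lam P z)
    (hB : Sub B A) : NL F B σ w lam P z :=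
  ⟨fun ω hω => h.inc ω (hB _ hω), fun ω ω' hω hω' => h.vis ω ω' (hB _ hω) (hB _ hω'),
    fun ω ω' hω hω' => h.con ω ω' (hB _ hω) (hB _ hω')⟩

theorem fnr_sub {σ : Fin 3 → Fin 3} {σ' : ℝ → Row} {g wr v₀ v ρ e η : ℝ} {ul us : ℚ}
    {Va Rt : ℕ} {s a' t' : F.Ω → ℝ} {zl zs : F.Ω → Pln}
    (h : FNr F A σ σ' g wr v₀ v ρ e η ul us Va Rt s a' t' zl zs) (hB : Sub B A) :
    FNr F B σ σ' g wr v₀ v ρ e η ul us Va Rt s a' t' zl zs := by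
  obtain ⟨E, g1, g2, g3, g4⟩ := h.cl
  exact ⟨h.vb, h.rb, nl_sub h.nl hB, nl_sub h.ns hB,
    fun ω ω' hω hω' => h.fz ω ω' (hB _ hω) (hB _ hω'), fun ω hω => h.sl ω (hB _ hω),
    E, g1, g2, fun ω hω => g3 ω (hB _ hω), fun ω hω => g4 ω (hB _ hω)⟩

/-- Less digits. -/
theorem inc_low {i₀ iu iN : Fin 3} {w lam lam' P P' : ℕ} {y : Pln} {t : ℝ} {x d : Fin 3 → ℝ}
    (h : Inc i₀ iu iN w lam P 2 y t x d) (h1 : lam' ≤ lam) (h2 : P' ≤ P) :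
    Inc i₀ iu iN w lam' P' 2 y t x d := by
  have hp : (2 : ℝ) ^ P' ≤ 2 ^ P := pow_le_pow_right₀ (by norm_num) h2
  have g := inc_lam (by norm_num) h1 h
  exact ⟨g.e_le, g.c_le, g.s_le, g.pe, g.pu,
    g.pn.trans (div_le_div_of_nonneg_left (by norm_num) (by positivity) hp), g.ve, g.vu,
    g.vn.trans (div_le_div_of_nonneg_left (by positivity) (by positivity) hp)⟩

/-- Natural labels of `NLc` are natural labels. -/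
theorem nl_of_nlc {i₀ iu iN : Fin 3} {M Pu : ℕ} {w V T Hh : ℕ → ℕ}
    {e n : (Fin 3 → ℤ) × (ℕ × F.ζ) → Fin 3 → ℝ} {z : ℕ → F.Ω → Pln}
    (h : NLc F A i₀ iu iN M Pu w V T Hh e n z) {j : ℕ} (hj : j ≤ M) {w' lam P : ℕ}
    (hw : w' = w j) (h1 : lam ≤ V j) (h2 : P ≤ T j) : NL F A ![i₀, iu, iN] w' lam P (z j) := by
  subst hw
  refine ⟨fun ω hω => ?_, fun ω ω' hω hω' hp => ?_, fun ω ω' _ _ hs => ?_⟩
  · exact inc_low (h.inc j hj ω hω) h1 h2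
  · obtain ⟨φ, hφ⟩ := h.zp j hj
    rw [hφ ω hω, hφ ω' hω', show ptq F J ω = ptq F J ω' from hp]
  · obtain ⟨ψ, hψ⟩ := h.zs j hj
    rw [hψ, hψ, hs]

/-- Less digits of the normal forms. -/
theorem GLb.low {i₀ iu iN : Fin 3} {M Pu PN : ℕ} {w V R R' : ℕ → ℕ} {al ta : ℕ → F.Ω → ℝ}
    {s eu nu kk bb nN : F.Ω → ℝ} (h : GLb F A i₀ iu iN M Pu PN w V R al ta s eu nu kk bb nN)
    (hR : ∀ j ≤ M, R' j ≤ R j) : GLb F A i₀ iu iN M Pu PN w V R' al ta s eu nu kk bb nN := by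
  refine ⟨h.hi, h.fa, h.fs, h.wJ, h.fp, h.fpa, h.on1, h.on2, h.on3, h.ca, ?_, h.bu, h.bs, ?_⟩
  · intro j hj ω hω
    exact (h.ct j hj ω hω).trans (inv_mono (hR j hj))
  · intro ω hω
    have h1 := inv_mono (hR M le_rfl)
    have h2 := h.bk ω hω
    linarith

/-- The natural label with slope `0`. -/
theorem nl_zpl {i₀ ju jN iu iN : Fin 3} {w lam' P' lam P : ℕ} {z : F.Ω → Pln} (hB : Sub B A)
    (hj : ∀ j : Fin 3, j = i₀ ∨ j = ju ∨ j = jN) (hi : ∀ j : Fin 3, j = i₀ ∨ j = iu ∨ j = iN)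
    (hI : ∀ ω, A ω → Inc i₀ ju jN w lam' P' 2 (z ω) (F.t ω) (F.x ω) (F.d ω))
    (hp : ∃ φ : (Fin 3 → ℤ) × (ℕ × F.ζ) → Pln, ∀ ω, A ω → z ω = φ (ptq F J ω))
    (hs : ∃ ψ : ((Fin 3 → ℝ) × (Fin 3 → ℝ)) × F.ζ × ℕ → Pln, ∀ ω, z ω = ψ (slam F w ω))
    (he : ∀ ω, B ω → ∀ k, k ≠ i₀ → |dirZ ju jN (z ω) k| ≤ 2) (h1 : P + 1 ≤ P')
    (h2 : w + lam + 1 ≤ P') (h3 : P + 3 ≤ w + lam') (h4 : lam + 3 ≤ lam') :
    NL F B ![i₀, iu, iN] w lam P (fun ω => zpl ju jN iu iN (z ω)) := by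
  refine ⟨fun ω hω => ?_, fun ω ω' hω hω' hpp => ?_, fun ω ω' _ _ hss => ?_⟩
  · exact zpl_inc hj hi (hI ω (hB _ hω)) (he ω hω) h1 h2 h3 h4
  · obtain ⟨φ, hφ⟩ := hp
    beta_reduce
    rw [hφ ω (hB _ hω), hφ ω' (hB _ hω'), show ptq F J ω = ptq F J ω' from hpp]
  · obtain ⟨ψ, hψ⟩ := hs
    beta_reduce
    rw [hψ, hψ, hss]

end sub

end Pool.S6HF
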