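import Pool.Agent.H99.S6H.Zero2
import Pool.Agent.H19.S6H.Frm

/-!
# The frames of one family, for all integer levels
-/

set_option autoImplicit false

namespace Pool.S6HF

open Finset Real
open Pool.Agent.H49.Ent Pool.Agent.H32.Dense Pool.STK Pool.KA Pool.KSAT Pool.K2S Pool.PB Pool.KS6
  Pool.S6C Pool.FALL Pool.S6F

/-- The grid. -/
def ug (ul us : ℚ) (M j : ℕ) : ℚ := us - j * ((us - ul) / M)

theorem ug_zero (ul us : ℚ) (M : ℕ) : ug ul us M 0 = us := by
  unfold ug
  simp

theorem ug_last {ul us : ℚ} {M : ℕ} (hM : 0 < M) : ug ul us M M = ul := by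
  unfold ug
  have : (M : ℚ) ≠ 0 := by exact_mod_cast hM.ne'
  field_simp
  ring

theorem ug_succ (ul us : ℚ) (M j : ℕ) : ug ul us M (j + 1) = ug ul us M j - (us - ul) / M := by
  unfold ug
  push_cast
  ring

theorem ug_mem {ul us : ℚ} {M : ℕ} (hM : 0 < M) (h : ul ≤ us) {j : ℕ} (hj : j ≤ M) :
    ul ≤ ug ul us M j ∧ ug ul us M j ≤ us := by
  have hM0 : (0 : ℚ) < M := by exact_mod_cast hM
  have h1 : 0 ≤ (us - ul) / M := div_nonneg (by linarith only [h]) hM0.le
  have h2 : (j : ℚ) ≤ M := by exact_mod_cast hj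
  have h3 : (j : ℚ) * ((us - ul) / M) ≤ M * ((us - ul) / M) := mul_le_mul_of_nonneg_right h2 h1
  have h4 : (M : ℚ) * ((us - ul) / M) = us - ul := by field_simp
  have h5 : 0 ≤ (j : ℚ) * ((us - ul) / M) := mul_nonneg (Nat.cast_nonneg j) h1
  unfold ug
  constructor <;> linarith

/-- The window of the grid below an integer window. -/
theorem exists_jj {ul us : ℚ} {M : ℕ} (hM : 0 < M) {J : ℕ} {x : ℝ} (h1 : (ul : ℝ) * J ≤ x)
    (h2 : x < us * J) : ∃ j ≤ M, (ug ul us M j : ℝ) * J ≤ x ∧
      x < ((ug ul us M j : ℝ) + ((us - ul : ℚ) : ℝ) / M) * J := by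
  classical
  have hex : ∃ j, (ug ul us M j : ℝ) * J ≤ x := ⟨M, by rw [ug_last hM]; exact h1⟩
  obtain ⟨j, hj⟩ : ∃ j, j = Nat.find hex := ⟨_, rfl⟩
  have hs := Nat.find_spec hex
  rw [← hj] at hs
  have hle : j ≤ M := by
    rw [hj]
    exact Nat.find_min' hex (by rw [ug_last hM]; exact h1)
  have hj0 : j ≠ 0 := by
    intro h0
    rw [h0, ug_zero] at hs
    linarith only [h2, hs]
  obtain ⟨k, rfl⟩ := Nat.exists_eq_succ_of_ne_zero hj0
  have hk : ¬ (ug ul us M k : ℝ) * J ≤ x := Nat.find_min hex (by rw [← hj]; exact Nat.lt_succ_self k)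
  refine ⟨k + 1, hle, hs, ?_⟩
  rw [not_le] at hk
  have e1 : (ug ul us M k : ℝ) = (ug ul us M (k + 1) : ℝ) + ((us - ul : ℚ) : ℝ) / M := by
    rw [ug_succ]
    push_cast
    ring
  rw [← e1]
  exact hk

/-- A bound in integer exponents. -/
theorem pw_le {x c : ℝ} {m k a b : ℕ} (hc : c ≤ 4) (hx : x ≤ c / 2 ^ m) (h : b + 2 ≤ k + a + m) :
    x ≤ 2 ^ k * 2 ^ a / 2 ^ b := by
  refine hx.trans ((div_le_div_of_nonneg_right hc (by positivity)).trans ?_)
  rw [div_le_div_iff₀ (by positivity) (by positivity)]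
  calc (4 : ℝ) * 2 ^ b = 2 ^ (b + 2) := by rw [pow_add]; norm_num; ring
    _ ≤ 2 ^ (k + a + m) := pow_le_pow_right₀ (by norm_num) h
    _ = 2 ^ k * 2 ^ a * 2 ^ m := by rw [pow_add, pow_add]

section two

variable {J : ℕ} {F : Fam 3 J} {A : F.Ω → Prop} {i₀ iu iN : Fin 3} {M Pu₀ PN₀ : ℕ}
  {al ta : ℕ → F.Ω → ℝ} {s eu nu kk bb nN : F.Ω → ℝ} {zl zs : F.Ω → Pln}
  {σ' : ℝ → Row} {act rc : ℚ → ℝ} {v₁ t : ℚ} {e₁ pe P g wr v₀ v a₀ α L e G : ℝ} {ul us : ℚ}

/-- The precisions of the directions. -/
noncomputable def gV (wr v₀ v e : ℝ) (ul us : ℚ) (M J j : ℕ) : ℕ :=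
  ⌊(v₀ + v * ((ug ul us M j : ℝ) - wr) - 3 * e) * J⌋₊

/-- The precisions of the normal forms. -/
noncomputable def gR (g wr v e : ℝ) (ul us : ℚ) (M J j : ℕ) : ℕ :=
  ⌊(g - wr + v * ((ug ul us M j : ℝ) - wr) - 8 * e) * J⌋₊

/-- The windows. -/
noncomputable def gw (ul us : ℚ) (M J j : ℕ) : ℕ := ⌊(ug ul us M j : ℝ) * J⌋₊

theorem fl_bd {x : ℝ} (hx : 0 ≤ x) : (⌊x⌋₊ : ℝ) ≤ x ∧ x < ⌊x⌋₊ + 1 :=
  ⟨Nat.floor_le hx, Nat.lt_floor_add_one x⟩

/-- **The frames and the natural labels**, for all integer levels. -/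
theorem hfr_two (hZ : Zoh σ' act rc v₁ t e₁ pe P g wr v₀ v a₀ α L e G) (hv1 : v₁ ≤ 1)
    (hM : 0 < M)
    (hmesh : v * (((us - ul : ℚ) : ℝ) / M) ≤ e) (hul : wr - L / 2 ≤ ul) (hus : us ≤ wr + L / 2)
    (hlt : ul < us) (hJ : 100 ≤ e * J)
    (h : GLb F A i₀ iu iN M Pu₀ PN₀ (gw ul us M J) (gV wr v₀ v e ul us M J)
      (gR g wr v e ul us M J) al ta s eu nu kk bb nN)
    (hnl : NL F A ![i₀, iu, iN] ⌊(ul : ℝ) * J⌋₊ ⌊((σ' 1).rot ul - 10 * e) * J⌋₊
      ⌊((σ' 1).th ul - 10 * e) * J⌋₊ zl)
    (hns : NL F A ![i₀, iu, iN] ⌊(us : ℝ) * J⌋₊ ⌊((σ' 1).rot us - 10 * e) * J⌋₊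
      ⌊((σ' 1).th us - 10 * e) * J⌋₊ zs)
    (hl : ∀ ω, A ω → (zl ω).e = al M ω ∧ (zl ω).s = -s ω ∧ (zl ω).c = -(ta M ω))
    {Hq : ℕ} (hHq : (g - wr - v₀) * J - 6 * e * J ≤ Hq)
    (hsz : ∀ ω, A ω → (zs ω).e = al 0 ω ∧ ta 0 ω = -(zs ω).c + (-(zs ω).s - s ω) * (zs ω).e ∧
      |(zs ω).s + s ω| ≤ 1 / 2 ^ Hq) {N w₀ Δ r V₀ H X Pu PN : ℕ}
    (hv : HLv J N g wr v₀ v L e ul us w₀ Δ r V₀ H X) (hPu : Pu ≤ Pu₀) (hPN : PN ≤ PN₀) :
    ∃ (Va Rt : ℕ) (a t : ℕ → F.Ω → ℝ) (a' t' : F.Ω → ℝ),
      HFr F A ![i₀, iu, iN] N w₀ Δ r V₀ H X Va Rt Pu PN a t s a' t' eu nu kk bb ∧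
      FNr F A ![i₀, iu, iN] σ' g wr v₀ v v e (10 * e) ul us Va Rt s a' t' zl zs := by
  have hlog : 0 ≤ Real.log 2 := Real.log_nonneg (by norm_num)
  have hlog1 : Real.log 2 ≤ 1 := by
    have := Real.log_two_lt_d9
    linarith only [this]
  have hJ0 : (0 : ℝ) ≤ J := Nat.cast_nonneg J
  have he := hZ.e0
  have hv0 := hZ.v0
  have heL := hZ.eL
  have hLG := hZ.LG
  have hL0 : 0 < L := by linarith only [he, heL]
  have hvL : 0 < v * L := by positivity
  have hJp : (0 : ℝ) < J := by
    by_contra hc
    have : (J : ℝ) = 0 := le_antisymm (not_lt.1 hc) hJ0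
    rw [this] at hJ
    linarith only [hJ]
  have hg11 := hZ.g11
  have hg10 := hZ.g10
  have hg9 := hZ.g9
  have hg6 := hZ.g6
  -- the grid
  have hu : ∀ j ≤ M, (ul : ℝ) ≤ ug ul us M j ∧ (ug ul us M j : ℝ) ≤ us := fun j hj => by
    obtain ⟨h1, h2⟩ := ug_mem hM hlt.le hj
    exact ⟨by exact_mod_cast h1, by exact_mod_cast h2⟩
  obtain ⟨y, hy⟩ : ∃ y : ℕ → ℝ, y = fun j => v * ((ug ul us M j : ℝ) - wr) * J := ⟨_, rfl⟩
  have hyj : ∀ j, v * ((ug ul us M j : ℝ) - wr) * J = y j := fun j => by rw [hy]
  have hyM : v * ((ul : ℝ) - wr) * J = y M := by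
    rw [← hyj, ug_last hM]
  have hy0 : v * ((us : ℝ) - wr) * J = y 0 := by
    rw [← hyj, ug_zero]
  exact by
   have hyb : ∀ j ≤ M, -(v * L / 2 * J) ≤ y j ∧ y j ≤ v * L / 2 * J := fun j hj => by
     obtain ⟨h1, h2⟩ := hu j hj
     rw [← hyj]
     constructor
     · have : v * (-(L / 2)) * J ≤ v * ((ug ul us M j : ℝ) - wr) * J :=
         mul_le_mul_of_nonneg_right (mul_le_mul_of_nonneg_left (by linarith only [hul, h1]) hv0.le) hJ0
       linarith only [this]
     · have : v * ((ug ul us M j : ℝ) - wr) * J ≤ v * (L / 2) * J :=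
         mul_le_mul_of_nonneg_right (mul_le_mul_of_nonneg_left (by linarith only [hus, h2]) hv0.le) hJ0
       linarith only [this]
   have hymono : y M ≤ y 0 := by
     rw [← hyM, ← hy0]
     have : (ul : ℝ) ≤ us := by exact_mod_cast hlt.le
     exact mul_le_mul_of_nonneg_right (mul_le_mul_of_nonneg_left (by linarith only [this]) hv0.le) hJ0
   -- bounds of the room, times `J`
   have bG : (10 + 4 * v) * L * J ≤ G * J := mul_le_mul_of_nonneg_right hLG hJ0
   have bG' : (10 + 4 * v) * L * J = 10 * (L * J) + 4 * (v * L * J) := by ring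
   have beL : 100 * (e * J) ≤ L * J := by
     have := mul_le_mul_of_nonneg_right heL hJ0
     linarith only [this]
   have bvL : 0 ≤ v * L * J := by positivity
   have b10 : G * J ≤ v₀ * J := mul_le_mul_of_nonneg_right hg10.le hJ0
   have b11 : v₀ * J ≤ (g - wr) * J := mul_le_mul_of_nonneg_right hg11 hJ0
   have evL : v * L / 2 * J = v * L * J / 2 := by ring
   have FV : ∀ j ≤ M, (gV wr v₀ v e ul us M J j : ℝ) ≤ v₀ * J + y j - 3 * (e * J) ∧
       v₀ * J + y j - 3 * (e * J) < gV wr v₀ v e ul us M J j + 1 := fun j hj => by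
     obtain ⟨h1, h2⟩ := hyb j hj
     have e1 : (v₀ + v * ((ug ul us M j : ℝ) - wr) - 3 * e) * J = v₀ * J + y j - 3 * (e * J) := by
       rw [← hyj]
       ring
     have h3 : 0 ≤ (v₀ + v * ((ug ul us M j : ℝ) - wr) - 3 * e) * J := by
       rw [e1]
       linarith only [hJ, bG, beL, bvL, b10, h1]
     obtain ⟨h4, h5⟩ := fl_bd h3
     unfold gV
     rw [← e1]
     exact ⟨h4, h5⟩
   exact by
    have FR : ∀ j ≤ M, (gR g wr v e ul us M J j : ℝ) ≤ (g - wr) * J + y j - 8 * (e * J) ∧
        (g - wr) * J + y j - 8 * (e * J) < gR g wr v e ul us M J j + 1 := fun j hj => by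
      obtain ⟨h1, h2⟩ := hyb j hj
      have e1 : (g - wr + v * ((ug ul us M j : ℝ) - wr) - 8 * e) * J =
          (g - wr) * J + y j - 8 * (e * J) := by
        rw [← hyj]
        ring
      have h3 : 0 ≤ (g - wr + v * ((ug ul us M j : ℝ) - wr) - 8 * e) * J := by
        rw [e1]
        linarith only [hJ, bG, beL, bvL, b10, b11, h1]
      obtain ⟨h4, h5⟩ := fl_bd h3
      unfold gR
      rw [← e1]
      exact ⟨h4, h5⟩
    -- the windows
    have hw0N : ∀ i ≤ N, (w₀ : ℝ) ≤ ((w₀ + i * Δ : ℕ) : ℝ) ∧
        ((w₀ + i * Δ : ℕ) : ℝ) ≤ ((w₀ + N * Δ : ℕ) : ℝ) := fun i hi => by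
      have h1 : i * Δ ≤ N * Δ := Nat.mul_le_mul_right Δ hi
      constructor
      · exact_mod_cast Nat.le_add_right _ _
      · exact_mod_cast Nat.add_le_add_left h1 _
    have hjj : ∀ i, ∃ j, i ≤ N → j ≤ M ∧ (ug ul us M j : ℝ) * J ≤ ((w₀ + i * Δ : ℕ) : ℝ) ∧
        ((w₀ + i * Δ : ℕ) : ℝ) < ((ug ul us M j : ℝ) + ((us - ul : ℚ) : ℝ) / M) * J := by
      intro i
      by_cases hi : i ≤ N
      · obtain ⟨h1, h2⟩ := hw0N i hi
        have h3 := hv.ul1
        have h4 := hv.us0
        obtain ⟨j, g1, g2, g3⟩ := exists_jj (ul := ul) (us := us) hM (J := J)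
          (x := ((w₀ + i * Δ : ℕ) : ℝ)) (by linarith only [hJ, h1, h3]) (by linarith only [hJ, h2, h4])
        exact ⟨j, fun _ => ⟨g1, g2, g3⟩⟩
      · exact ⟨0, fun h' => absurd h' hi⟩
    choose jj hjj' using hjj
    exact by
     have hX : (X : ℝ) ≤ v * L * J + 10 * (e * J) := by
       have h1 := hv.rs1
       have h2 := hv.vt' N le_rfl
       have h3 := (hyb 0 (Nat.zero_le _)).2
       have h4 := hv.zl
       have h5 := (hw0N N le_rfl).1
       have e1 : v₀ * J + v * ((us : ℝ) - wr) * J - 20 * e * J = v₀ * J + y 0 - 20 * (e * J) := by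
         rw [← hy0]
         ring
       rw [e1] at h1
       push_cast at h1 h2 h5
       have h6 : v * (((w₀ : ℝ) + N * Δ) - wr * J) ≥ -(v * L / 2 * J) := by
         have h7 : (wr - L / 2) * J ≤ (w₀ : ℝ) + N * Δ := by linarith only [h4, h5]
         have h8 : v * (-(L / 2 * J)) ≤ v * (((w₀ : ℝ) + N * Δ) - wr * J) :=
           mul_le_mul_of_nonneg_left (by linarith only [h4, h5]) hv0.le
         linarith only [h8]
       linarith only [h3, h1, h2, h6]
     -- the numbers of digits
     obtain ⟨Va, hVa⟩ : ∃ Va, Va = gV wr v₀ v e ul us M J 0 := ⟨_, rfl⟩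
     obtain ⟨Rt, hRt⟩ : ∃ Rt, Rt = gR g wr v e ul us M J 0 := ⟨_, rfl⟩
     obtain ⟨FVa, FVa'⟩ := FV 0 (Nat.zero_le _)
     obtain ⟨FRt, FRt'⟩ := FR 0 (Nat.zero_le _)
     rw [← hVa] at FVa FVa'
     rw [← hRt] at FRt FRt'
     have n5 : fv V₀ r N + X ≤ Va := by
       have h1 := hv.rs1
       have e1 : v₀ * J + v * ((us : ℝ) - wr) * J - 20 * e * J = v₀ * J + y 0 - 20 * (e * J) := by
         rw [← hy0]
         ring
       rw [e1] at h1
       have : ((fv V₀ r N + X : ℕ) : ℝ) < ((Va + 1 : ℕ) : ℝ) := by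
         unfold fv
         push_cast at h1 ⊢
         linarith only [hJ, FVa', h1]
       have : fv V₀ r N + X < Va + 1 := by exact_mod_cast this
       omega
     exact by
      have n6 : fv V₀ r N + H + X ≤ Rt := by
        have h1 := hv.rs2
        have e1 : (g - wr) * J + v * ((us : ℝ) - wr) * J - 20 * e * J =
            (g - wr) * J + y 0 - 20 * (e * J) := by
          rw [← hy0]
          ring
        rw [e1] at h1
        have : ((fv V₀ r N + H + X : ℕ) : ℝ) < ((Rt + 1 : ℕ) : ℝ) := by
          unfold fv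
          push_cast at h1 ⊢
          linarith only [hJ, FRt', h1]
        have : fv V₀ r N + H + X < Rt + 1 := by exact_mod_cast this
        omega
      have hmJ : v * (((us - ul : ℚ) : ℝ) / M) * J ≤ e * J := mul_le_mul_of_nonneg_right hmesh hJ0
      have hstep : ∀ i ≤ N, v * (((w₀ + i * Δ : ℕ) : ℝ) - wr * J) ≤ y (jj i) + e * J := by
        intro i hi
        obtain ⟨g1, g2, g3⟩ := hjj' i hi
        have h1 : v * (((w₀ + i * Δ : ℕ) : ℝ) - wr * J) ≤
            v * (((ug ul us M (jj i) : ℝ) + ((us - ul : ℚ) : ℝ) / M) * J - wr * J) :=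
          mul_le_mul_of_nonneg_left (by linarith only [g3]) hv0.le
        rw [← hyj]
        have e1 : v * (((ug ul us M (jj i) : ℝ) + ((us - ul : ℚ) : ℝ) / M) * J - wr * J) =
            v * ((ug ul us M (jj i) : ℝ) - wr) * J + v * (((us - ul : ℚ) : ℝ) / M) * J := by ring
        rw [e1] at h1
        linarith only [hmJ, h1]
      have n3 : ∀ i ≤ N, fv V₀ r i ≤ gV wr v₀ v e ul us M J (jj i) := by
        intro i hi
        obtain ⟨g1, g2, g3⟩ := hjj' i hi
        have h1 := hv.vt i hi
        have h2 := (FV (jj i) g1).2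
        have h3 := hstep i hi
        have : ((fv V₀ r i : ℕ) : ℝ) < ((gV wr v₀ v e ul us M J (jj i) + 1 : ℕ) : ℝ) := by
          unfold fv
          push_cast at h1 h3 ⊢
          linarith only [hJ, h2, h1, h3]
        have : fv V₀ r i < gV wr v₀ v e ul us M J (jj i) + 1 := by exact_mod_cast this
        omega
      exact by
       have n4 : ∀ i ≤ N, fv V₀ r i + H ≤ gR g wr v e ul us M J (jj i) := by
         intro i hi
         obtain ⟨g1, g2, g3⟩ := hjj' i hi
         have h1 := hv.rt i hi
         have h2 := (FR (jj i) g1).2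
         have h3 := hstep i hi
         have : ((fv V₀ r i + H : ℕ) : ℝ) < ((gR g wr v e ul us M J (jj i) + 1 : ℕ) : ℝ) := by
           unfold fv
           push_cast at h1 h3 ⊢
           linarith only [hJ, h2, h1, h3]
         have : fv V₀ r i + H < gR g wr v e ul us M J (jj i) + 1 := by exact_mod_cast this
         omega
       have nV : 2 ≤ fv V₀ r N := by
         have h2 := hv.vt' N le_rfl
         have h4 := hv.zl
         have h5 := (hw0N N le_rfl).1
         have h6 : v * (((w₀ + N * Δ : ℕ) : ℝ) - wr * J) ≥ -(v * L / 2 * J) := by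
           have h7 : (wr - L / 2) * J ≤ ((w₀ + N * Δ : ℕ) : ℝ) := by linarith only [h4, h5]
           have h8 : v * (-(L / 2 * J)) ≤ v * (((w₀ + N * Δ : ℕ) : ℝ) - wr * J) :=
             mul_le_mul_of_nonneg_left (by linarith only [h4, h5]) hv0.le
           linarith only [h8]
         have : ((2 : ℕ) : ℝ) ≤ ((fv V₀ r N : ℕ) : ℝ) := by
           unfold fv
           push_cast at h2 h6 ⊢
           linarith only [hJ, bG, beL, bvL, b10, h2, h6]
         exact_mod_cast this
       have hH : (H : ℝ) ≤ (g - wr - v₀) * J := by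
         have e1 : (g - wr - v₀) * J = (g - wr) * J - v₀ * J := by ring
         rcases hv.hs with h0 | h0
         · rw [h0, e1, Nat.cast_zero]
           linarith only [b11]
         · linarith only [hJ, h0]
       exact by
        have nR : H + X + 1 ≤ gR g wr v e ul us M J M := by
          have h1 := (FR M le_rfl).2
          have h2 := (hyb M le_rfl).1
          have e1 : (g - wr - v₀) * J = (g - wr) * J - v₀ * J := by ring
          have : ((H + X + 1 : ℕ) : ℝ) < ((gR g wr v e ul us M J M + 1 : ℕ) : ℝ) := by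
            push_cast
            linarith only [hJ, bG, beL, bvL, b10, hX, hH, h1, h2]
          have : H + X + 1 < gR g wr v e ul us M J M + 1 := by exact_mod_cast this
          omega
        have hwM : gw ul us M J M ≤ w₀ := by
          have h1 := hv.ul1
          unfold gw
          rw [ug_last hM]
          refine (Nat.floor_le_floor (by linarith only [hJ, h1] : (ul : ℝ) * J ≤ w₀)).trans ?_
          rw [Nat.floor_natCast]
        have hwj : ∀ i ≤ N, gw ul us M J (jj i) ≤ fw w₀ Δ i := by
          intro i hi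
          obtain ⟨g1, g2, g3⟩ := hjj' i hi
          unfold gw
          refine (Nat.floor_le_floor g2).trans ?_
          rw [Nat.floor_natCast]
          rfl
        have hwJ : fw w₀ Δ N ≤ J := by
          have h1 := hv.zu
          have h2 : (wr + L / 2) * J ≤ 1 * J := by
            refine mul_le_mul_of_nonneg_right ?_ hJ0
            have h3 : (v₁ : ℝ) ≤ 1 := by exact_mod_cast hv1
            have h4 : L ≤ G := by nlinarith only [he, heL, hLG, hvL]
            linarith only [he, heL, hLG, hvL, hg6, h3]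
          have : ((fw w₀ Δ N : ℕ) : ℝ) ≤ ((J : ℕ) : ℝ) := by
            unfold fw
            push_cast at h1 ⊢
            linarith only [h2, h1]
          exact_mod_cast this
        exact by
         have core := hfr_core h (N := N) (w₀ := w₀) (Δ := Δ) (r := r) (V₀ := V₀) (H := H) (X := X)
           (Va := Va) (Rt := Rt) (Pu := Pu) (PN := PN) jj (fun i hi => (hjj' i hi).1) hwJ hwj hwM n3 n4
           (by rw [← hVa]; exact n5) (by rw [← hRt]; exact n6) n5 n6 hPu hPN nV nR
         refine ⟨Va, Rt, _, _, _, _, core, ?_⟩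
         -- the natural labels
         obtain ⟨k, hk⟩ : ∃ k, k = ⌊20 * e * J⌋₊ := ⟨_, rfl⟩
         obtain ⟨fk, fk'⟩ := fl_bd (show 0 ≤ 20 * e * J by positivity)
         rw [← hk] at fk fk'
         have affl := hZ.aff ul (by
           rw [abs_le]
           have := (hu M le_rfl).2
           have h1 : (ul : ℝ) ≤ us := by exact_mod_cast hlt.le
           constructor <;> linarith)
         have affs := hZ.aff us (by
           rw [abs_le]
           have h1 : (ul : ℝ) ≤ us := by exact_mod_cast hlt.le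
           constructor <;> linarith)
         obtain ⟨⟨l1, l2⟩, ⟨l3, l4⟩, -⟩ := And.imp abs_le.1 (And.imp_left abs_le.1) affl
         obtain ⟨⟨m1, m2⟩, ⟨m3, m4⟩, -⟩ := And.imp abs_le.1 (And.imp_left abs_le.1) affs
         have mulJ : ∀ {p q : ℝ}, p ≤ q → p * J ≤ q * J := fun h => mul_le_mul_of_nonneg_right h hJ0
         have ulJ : 0 ≤ (ul : ℝ) * J := by
           have : (0 : ℝ) ≤ ul := by nlinarith only [hul, he, heL, hLG, hvL, hg9]
           positivity
         have usJ : 0 ≤ (us : ℝ) * J := by
           have h1 : (ul : ℝ) ≤ us := by exact_mod_cast hlt.le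
           have : (0 : ℝ) ≤ us := by nlinarith only [hul, he, heL, hLG, hvL, hg9, h1]
           positivity
         obtain ⟨ful, ful'⟩ := fl_bd ulJ
         obtain ⟨fus, fus'⟩ := fl_bd usJ
         -- the numbers at the two windows, times `J`
         exact by
          have Ul : ((ul : ℝ) + (σ' 1).rot ul) * J ≤ ul * J + v₀ * J + y M + e * J := by
            have := mulJ l2
            have e1 : (((σ' 1).rot ul - v₀ - v * (ul - wr)) * J : ℝ) =
                (σ' 1).rot ul * J - v₀ * J - v * (ul - wr) * J := by ring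
            rw [e1, hyM] at this
            linarith only [this]
          have Us : ((us : ℝ) + (σ' 1).rot us) * J ≤ us * J + v₀ * J + y 0 + e * J := by
            have := mulJ m2
            have e1 : (((σ' 1).rot us - v₀ - v * (us - wr)) * J : ℝ) =
                (σ' 1).rot us * J - v₀ * J - v * (us - wr) * J := by ring
            rw [e1, hy0] at this
            linarith only [this]
          have Us' : us * J + v₀ * J + y 0 - e * J ≤ ((us : ℝ) + (σ' 1).rot us) * J := by
            have := mulJ m1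
            have e1 : (((σ' 1).rot us - v₀ - v * (us - wr)) * J : ℝ) =
                (σ' 1).rot us * J - v₀ * J - v * (us - wr) * J := by ring
            rw [e1, hy0] at this
            linarith only [this]
          have Tl : (σ' 1).th ul * J ≤ ul * J + (g - wr) * J + y M + e * J := by
            have := mulJ l4
            have e1 : (((σ' 1).th ul - g - (1 + v) * (ul - wr)) * J : ℝ) =
                (σ' 1).th ul * J - (g - wr) * J - ul * J - v * (ul - wr) * J := by ring
            rw [e1, hyM] at this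
            linarith only [this]
          have Ts : (σ' 1).th us * J ≤ us * J + (g - wr) * J + y 0 + e * J := by
            have := mulJ m4
            have e1 : (((σ' 1).th us - g - (1 + v) * (us - wr)) * J : ℝ) =
                (σ' 1).th us * J - (g - wr) * J - us * J - v * (us - wr) * J := by ring
            rw [e1, hy0] at this
            linarith only [this]
          exact by
           have flp : ∀ x : ℝ, ∀ m : ℝ, x ≤ m → 0 ≤ m → (⌊x⌋₊ : ℝ) ≤ m := fun x m hx hm =>
             (Nat.cast_le.2 (Nat.floor_le_floor hx)).trans (Nat.floor_le hm)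
           obtain ⟨yM1, yM2⟩ := hyb M le_rfl
           obtain ⟨y01, y02⟩ := hyb 0 (Nat.zero_le _)
           have bUl := flp _ _ Ul (by linarith only [hJ, bG, beL, bvL, b10, ulJ, yM1])
           have bUs := flp _ _ Us (by linarith only [hJ, hymono, bG, beL, bvL, b10, usJ, yM1])
           have bTl := flp _ _ Tl (by linarith only [hJ, bG, beL, bvL, b10, b11, ulJ, yM1])
           have bTs := flp _ _ Ts (by linarith only [hJ, hymono, bG, beL, bvL, b10, b11, usJ, yM1])
           have bUs' : us * J + v₀ * J + y 0 - e * J < ⌊((us : ℝ) + (σ' 1).rot us) * J⌋₊ + 1 :=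
             Us'.trans_lt (Nat.lt_floor_add_one _)
           obtain ⟨FVM, FVM'⟩ := FV M le_rfl
           obtain ⟨FRM, FRM'⟩ := FR M le_rfl
           have e11 : (g - wr - v₀) * J = (g - wr) * J - v₀ * J := by ring
           have a0 : ∀ ω, A ω → |rdg Va (al 0 ω) - al 0 ω| ≤ 1 / 2 ^ Va := fun ω _ => rdg_near _ _
           have t0 : ∀ ω, A ω → |rdg Rt (ta 0 ω) - ta 0 ω| ≤ 1 / 2 ^ Rt := fun ω _ => rdg_near _ _
           refine ⟨?_, ?_, hnl, hns, ?_, ?_, 2 ^ k, one_le_pow₀ (by norm_num), ?_, ?_, ?_⟩
           · have e1 : (v₀ + v * ((us : ℝ) - wr) + 2 * e) * J = v₀ * J + y 0 + 2 * (e * J) := by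
               rw [← hy0]
               ring
             rw [e1]
             linarith only [hJ, FVa]
           · have e1 : (g - wr + v * ((us : ℝ) - wr) + 2 * e) * J = (g - wr) * J + y 0 + 2 * (e * J) := by
               rw [← hy0]
               ring
             rw [e1]
             linarith only [hJ, FRt]
           · intro ω ω' hω hω' h1 h2
             obtain ⟨k1, k2, k3⟩ := hl ω hω
             obtain ⟨k1', k2', k3'⟩ := hl ω' hω'
             obtain ⟨q1, q2, -⟩ := hsz ω hω
             obtain ⟨q1', q2', -⟩ := hsz ω' hω'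
             have hs : s ω = s ω' := by
               rw [h2] at k2
               linarith only [k2, k2']
             beta_reduce
             refine ⟨?_, hs, ?_⟩
             · rw [← q1, ← q1', h1]
             · rw [q2, q2', h1, hs]
           · intro ω hω
             obtain ⟨k1, k2, k3⟩ := hl ω hω
             unfold frs
             rw [k2, neg_neg]
           · rw [Real.log_pow]
             have : (k : ℝ) * Real.log 2 ≤ k * 1 := mul_le_mul_of_nonneg_left hlog1 (Nat.cast_nonneg k)
             linarith only [fk, this]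
           · intro ω hω
             obtain ⟨k1, k2, k3⟩ := hl ω hω
             have c0 := h.ca 0 (Nat.zero_le _) ω hω
             have cM := h.ca M le_rfl ω hω
             have d0 := h.ct 0 (Nat.zero_le _) ω hω
             have dM := h.ct M le_rfl ω hω
             rw [← hVa] at c0
             rw [← hRt] at d0
             refine ⟨?_, ?_, ?_⟩
             · refine pw_le (c := 3) (m := gV wr v₀ v e ul us M J M) (by norm_num) ?_ ?_
               · unfold fra
                 rw [k1]
                 have hmn : gV wr v₀ v e ul us M J M ≤ Va := by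
                   have : ((gV wr v₀ v e ul us M J M : ℕ) : ℝ) < ((Va + 1 : ℕ) : ℝ) := by
                     push_cast
                     linarith only [hymono, FVa', FVM]
                   have : gV wr v₀ v e ul us M J M < Va + 1 := by exact_mod_cast this
                   omega
                 have i1 := inv_mono hmn
                 have e1 : rdg Va (al 0 ω) - al M ω = (rdg Va (al 0 ω) - al 0 ω) + (al 0 ω - eu ω) -
                     (al M ω - eu ω) := by ring
                 have e2 : (3 : ℝ) / 2 ^ gV wr v₀ v e ul us M J M = 1 / 2 ^ gV wr v₀ v e ul us M J M +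
                   1 / 2 ^ gV wr v₀ v e ul us M J M + 1 / 2 ^ gV wr v₀ v e ul us M J M := by ring
                 rw [e1, e2]
                 refine (abs_sub _ _).trans (add_le_add ((abs_add_le _ _).trans (add_le_add ?_ ?_)) cM)
                 · exact (a0 ω hω).trans i1
                 · exact c0.trans i1
               · have : ((⌊((ul : ℝ) + (σ' 1).rot ul) * J⌋₊ + 2 : ℕ) : ℝ) <
                     ((k + ⌊(ul : ℝ) * J⌋₊ + gV wr v₀ v e ul us M J M + 1 : ℕ) : ℝ) := by
                   push_cast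
                   linarith only [hJ, fk', ful', bUl, FVM']
                 have : ⌊((ul : ℝ) + (σ' 1).rot ul) * J⌋₊ + 2 <
                     k + ⌊(ul : ℝ) * J⌋₊ + gV wr v₀ v e ul us M J M + 1 := by exact_mod_cast this
                 omega
             · unfold frs
               rw [k2, neg_neg, sub_self, abs_zero]
               positivity
             · refine pw_le (c := 3) (m := gR g wr v e ul us M J M) (by norm_num) ?_ ?_
               · unfold frt frs
                 rw [k2, k3, neg_neg, neg_neg, sub_self, zero_mul, add_zero]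
                 have hmn : gR g wr v e ul us M J M ≤ Rt := by
                   have : ((gR g wr v e ul us M J M : ℕ) : ℝ) < ((Rt + 1 : ℕ) : ℝ) := by
                     push_cast
                     linarith only [hymono, FRt', FRM]
                   have : gR g wr v e ul us M J M < Rt + 1 := by exact_mod_cast this
                   omega
                 have i1 := inv_mono hmn
                 have e1 : rdg Rt (ta 0 ω) - ta M ω = (rdg Rt (ta 0 ω) - ta 0 ω) + (ta 0 ω - kk ω) -
                     (ta M ω - kk ω) := by ring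
                 have e2 : (3 : ℝ) / 2 ^ gR g wr v e ul us M J M = 1 / 2 ^ gR g wr v e ul us M J M +
                   1 / 2 ^ gR g wr v e ul us M J M + 1 / 2 ^ gR g wr v e ul us M J M := by ring
                 rw [e1, e2]
                 refine (abs_sub _ _).trans (add_le_add ((abs_add_le _ _).trans (add_le_add ?_ ?_)) dM)
                 · exact (t0 ω hω).trans i1
                 · exact d0.trans i1
               · have : ((⌊(σ' 1).th ul * J⌋₊ + 2 : ℕ) : ℝ) <
                     ((k + ⌊(ul : ℝ) * J⌋₊ + gR g wr v e ul us M J M + 1 : ℕ) : ℝ) := by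
                   push_cast
                   linarith only [hJ, fk', ful', bTl, FRM']
                 have : ⌊(σ' 1).th ul * J⌋₊ + 2 <
                     k + ⌊(ul : ℝ) * J⌋₊ + gR g wr v e ul us M J M + 1 := by exact_mod_cast this
                 omega
           · intro ω hω
             obtain ⟨q1, q2, q3⟩ := hsz ω hω
             refine ⟨?_, ?_, ?_⟩
             · refine pw_le (c := 1) (m := Va) (by norm_num) ?_ ?_
               · unfold fra
                 rw [q1]
                 exact a0 ω hω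
               · have : ((⌊((us : ℝ) + (σ' 1).rot us) * J⌋₊ + 2 : ℕ) : ℝ) <
                     ((k + ⌊(us : ℝ) * J⌋₊ + Va + 1 : ℕ) : ℝ) := by
                   push_cast
                   linarith only [hJ, FVa', fk', fus', bUs]
                 have : ⌊((us : ℝ) + (σ' 1).rot us) * J⌋₊ + 2 < k + ⌊(us : ℝ) * J⌋₊ + Va + 1 := by
                   exact_mod_cast this
                 omega
             · refine pw_le (c := 1) (m := Hq) (by norm_num) ?_ ?_
               · unfold frs
                 rw [sub_neg_eq_add, add_comm]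
                 exact q3
               · have : ((⌊(σ' 1).th us * J⌋₊ + 2 : ℕ) : ℝ) <
                     ((k + ⌊((us : ℝ) + (σ' 1).rot us) * J⌋₊ + Hq + 1 : ℕ) : ℝ) := by
                   push_cast
                   linarith only [hJ, hHq, fk', bTs, bUs']
                 have : ⌊(σ' 1).th us * J⌋₊ + 2 <
                     k + ⌊((us : ℝ) + (σ' 1).rot us) * J⌋₊ + Hq + 1 := by exact_mod_cast this
                 omega
             · refine pw_le (c := 1) (m := Rt) (by norm_num) ?_ ?_
               · unfold frt frs fra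
                 have e1 : rdg Rt (ta 0 ω) - -(zs ω).c + (s ω - -(zs ω).s) * (zs ω).e =
                     rdg Rt (ta 0 ω) - ta 0 ω := by
                   rw [q2]
                   ring
                 rw [e1]
                 exact t0 ω hω
               · have : ((⌊(σ' 1).th us * J⌋₊ + 2 : ℕ) : ℝ) <
                     ((k + ⌊(us : ℝ) * J⌋₊ + Rt + 1 : ℕ) : ℝ) := by
                   push_cast
                   linarith only [hJ, FRt', fk', fus', bTs]
                 have : ⌊(σ' 1).th us * J⌋₊ + 2 < k + ⌊(us : ℝ) * J⌋₊ + Rt + 1 := by exact_mod_cast this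
                 omega

end two

end Pool.S6HF
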