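import Pool.Agent.H99.S6H.Pos

/-!
# The labels of the grid, the case `H = 0`

The labels of the windows have different normal forms; the exact directions are compared by pairs
of velocities. The slope is `0`.
-/

set_option autoImplicit false

namespace Pool.S6HF

open Finset Real
open Pool.Agent.H49.Ent Pool.Agent.H32.Dense Pool.STK Pool.KA Pool.KSAT Pool.K2S Pool.PB Pool.KS6
  Pool.S6C Pool.FALL Pool.S6F

/-- The direction of a plank which contains the direction of the fans. -/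
noncomputable def dirZ (iu iN : Fin 3) (z : Pln) (k : Fin 3) : ℝ :=
  if k = iu then z.e else if k = iN then -(z.c + z.s * z.e) else 1

theorem dirZ_near {i₀ iu iN : Fin 3} (hi : ∀ j : Fin 3, j = i₀ ∨ j = iu ∨ j = iN) {z : Pln}
    {e : Fin 3 → ℝ} {x y : ℝ} (h1 : |z.e - e iu| ≤ x) (h2 : |z.c + z.s * e iu + e iN| ≤ y)
    (h3 : |z.s| ≤ 4) {k : Fin 3} (hk : k ≠ i₀) : |dirZ iu iN z k - e k| ≤ 4 * x + y := by
  have hx : 0 ≤ x := (abs_nonneg _).trans h1
  have hy : 0 ≤ y := (abs_nonneg _).trans h2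
  obtain ⟨t1, t2, t3⟩ := three hi
  rcases hi k with h | h | h
  · exact absurd h hk
  · subst h
    unfold dirZ
    rw [if_pos rfl]
    refine h1.trans (by linarith)
  · subst h
    unfold dirZ
    rw [if_neg t3, if_pos rfl]
    have e1 : -(z.c + z.s * z.e) - e k = -(z.c + z.s * e iu + e k) - z.s * (z.e - e iu) := by ring
    rw [e1]
    refine (abs_sub _ _).trans ?_
    rw [abs_neg, abs_mul]
    have h4 : |z.s| * |z.e - e iu| ≤ 4 * x := mul_le_mul h3 h1 (abs_nonneg _) (by norm_num)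
    linarith

/-- The plank with slope `0` in the normal form `iu`, `iN`. -/
noncomputable def zpl (ju jN iu iN : Fin 3) (z : Pln) : Pln :=
  { z with e := dirZ ju jN z iu, c := -(dirZ ju jN z iN), s := 0 }

/-- The plank with slope `0` contains the line. -/
theorem zpl_inc {i₀ ju jN iu iN : Fin 3} (hj : ∀ j : Fin 3, j = i₀ ∨ j = ju ∨ j = jN)
    (hi : ∀ j : Fin 3, j = i₀ ∨ j = iu ∨ j = iN) {w lam' P' lam P : ℕ} {z : Pln} {t : ℝ}
    {x d : Fin 3 → ℝ} (h : Inc i₀ ju jN w lam' P' 2 z t x d)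
    (he : ∀ k, k ≠ i₀ → |dirZ ju jN z k| ≤ 2) (h1 : P + 1 ≤ P') (h2 : w + lam + 1 ≤ P')
    (h3 : P + 3 ≤ w + lam') (h4 : lam + 3 ≤ lam') :
    Inc i₀ iu iN w lam P 2 (zpl ju jN iu iN z) t x d := by
  obtain ⟨t1, t2, t3⟩ := three hj
  obtain ⟨s1, s2, s3⟩ := three hi
  have hs := h.s_le
  -- the two forms
  have key : ∀ y y' : Fin 3 → ℝ, ∀ p q : ℝ, |fu i₀ ju z.e y - fu i₀ ju z.e y'| ≤ p →
      |fn i₀ ju jN z.c z.s y - fn i₀ ju jN z.c z.s y'| ≤ q → ∀ k : Fin 3, k ≠ i₀ →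
      |(y k - dirZ ju jN z k * y i₀) - (y' k - dirZ ju jN z k * y' i₀)| ≤ 4 * p + q := by
    intro y y' p q hp hq k hk
    have hp0 : 0 ≤ p := (abs_nonneg _).trans hp
    have hq0 : 0 ≤ q := (abs_nonneg _).trans hq
    rcases hj k with h' | h' | h'
    · exact absurd h' hk
    · subst h'
      unfold dirZ
      rw [if_pos rfl]
      unfold fu at hp
      exact hp.trans (by linarith)
    · subst h'
      unfold dirZ
      rw [if_neg t3, if_pos rfl]
      have e1 : (y k - -(z.c + z.s * z.e) * y i₀) - (y' k - -(z.c + z.s * z.e) * y' i₀) =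
          (fn i₀ ju k z.c z.s y - fn i₀ ju k z.c z.s y') -
            z.s * (fu i₀ ju z.e y - fu i₀ ju z.e y') := by
        unfold fn fu
        ring
      rw [e1]
      refine (abs_sub _ _).trans ?_
      rw [abs_mul]
      have h5 : |z.s| * |fu i₀ ju z.e y - fu i₀ ju z.e y'| ≤ 4 * p :=
        mul_le_mul hs hp (abs_nonneg _) (by norm_num)
      linarith
  have kx := key x (fun i => z.xb i + t * z.db i) _ _ h.pu h.pn
  have kd := key d z.db _ _ h.vu h.vn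
  have p1 : (4 : ℝ) * (2 / 2 ^ (w + lam')) + 2 / 2 ^ P' ≤ 2 / 2 ^ P := by
    have a1 : (4 : ℝ) * (2 / 2 ^ (w + lam')) ≤ 1 / 2 ^ P := by
      rw [mul_div_assoc', div_le_div_iff₀ (by positivity) (by positivity), one_mul]
      calc (4 : ℝ) * 2 * 2 ^ P = 2 ^ (P + 3) := by rw [pow_add]; norm_num; ring
        _ ≤ 2 ^ (w + lam') := pow_le_pow_right₀ (by norm_num) h3
    have a2 : (2 : ℝ) / 2 ^ P' ≤ 1 / 2 ^ P := by
      rw [div_le_div_iff₀ (by positivity) (by positivity), one_mul]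
      calc (2 : ℝ) * 2 ^ P = 2 ^ (P + 1) := by rw [pow_succ]; ring
        _ ≤ 2 ^ P' := pow_le_pow_right₀ (by norm_num) h1
    have e1 : (2 : ℝ) / 2 ^ P = 1 / 2 ^ P + 1 / 2 ^ P := by ring
    linarith
  have p2 : (4 : ℝ) * (2 / 2 ^ (w + lam')) + 2 / 2 ^ P' ≤ 2 / 2 ^ (w + lam) := by
    have a1 : (4 : ℝ) * (2 / 2 ^ (w + lam')) ≤ 1 / 2 ^ (w + lam) := by
      rw [mul_div_assoc', div_le_div_iff₀ (by positivity) (by positivity), one_mul]
      calc (4 : ℝ) * 2 * 2 ^ (w + lam) = 2 ^ (w + lam + 3) := by rw [pow_add _ _ 3]; norm_num; ring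
        _ ≤ 2 ^ (w + lam') := pow_le_pow_right₀ (by norm_num) (by omega)
    have a2 : (2 : ℝ) / 2 ^ P' ≤ 1 / 2 ^ (w + lam) := by
      rw [div_le_div_iff₀ (by positivity) (by positivity), one_mul]
      calc (2 : ℝ) * 2 ^ (w + lam) = 2 ^ (w + lam + 1) := by rw [pow_succ]; ring
        _ ≤ 2 ^ P' := pow_le_pow_right₀ (by norm_num) h2
    have e1 : (2 : ℝ) / 2 ^ (w + lam) = 1 / 2 ^ (w + lam) + 1 / 2 ^ (w + lam) := by ring
    linarith
  have w2 : ∀ n : ℕ, (2 : ℝ) * 2 ^ w / 2 ^ n = 2 ^ w * (2 / 2 ^ n) := fun n => by ring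
  have m1 : ∀ a b : ℕ, (2 : ℝ) / 2 ^ (w + a) * 2 ^ w = 2 / 2 ^ a := by
    intro a _
    rw [pow_add]
    field_simp
  have vd1 : (4 : ℝ) * (2 / 2 ^ lam') + 2 * 2 ^ w / 2 ^ P' ≤ 2 * 2 ^ w / 2 ^ P := by
    have e1 : (4 : ℝ) * (2 / 2 ^ lam') = 4 * (2 / 2 ^ (w + lam')) * 2 ^ w := by
      rw [mul_assoc, m1 lam' 0]
    have e2 : (2 : ℝ) * 2 ^ w / 2 ^ P' = 2 / 2 ^ P' * 2 ^ w := by ring
    have e3 : (2 : ℝ) * 2 ^ w / 2 ^ P = 2 / 2 ^ P * 2 ^ w := by ring
    rw [e1, e2, e3, ← add_mul]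
    exact mul_le_mul_of_nonneg_right p1 (by positivity)
  have vd2 : (4 : ℝ) * (2 / 2 ^ lam') + 2 * 2 ^ w / 2 ^ P' ≤ 2 / 2 ^ lam := by
    have e1 : (4 : ℝ) * (2 / 2 ^ lam') = 4 * (2 / 2 ^ (w + lam')) * 2 ^ w := by
      rw [mul_assoc, m1 lam' 0]
    have e2 : (2 : ℝ) * 2 ^ w / 2 ^ P' = 2 / 2 ^ P' * 2 ^ w := by ring
    rw [e1, e2, ← m1 lam 0, ← add_mul]
    exact mul_le_mul_of_nonneg_right p2 (by positivity)
  refine ⟨he iu s1, ?_, ?_, h.pe, ?_, ?_, h.ve, ?_, ?_⟩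
  · show |-(dirZ ju jN z iN)| ≤ 4
    rw [abs_neg]
    exact (he iN s2).trans (by norm_num)
  · show |(0 : ℝ)| ≤ 4
    rw [abs_zero]
    norm_num
  · exact (kx iu s1).trans p2
  · have e1 : fn i₀ iu iN (zpl ju jN iu iN z).c (zpl ju jN iu iN z).s x -
        fn i₀ iu iN (zpl ju jN iu iN z).c (zpl ju jN iu iN z).s
          (fun i => (zpl ju jN iu iN z).xb i + t * (zpl ju jN iu iN z).db i) =
        (x iN - dirZ ju jN z iN * x i₀) - ((fun i => z.xb i + t * z.db i) iN -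
          dirZ ju jN z iN * (fun i => z.xb i + t * z.db i) i₀) := by
      unfold fn zpl
      ring
    rw [e1]
    exact (kx iN s2).trans p1
  · exact (kd iu s1).trans vd2
  · have e1 : fn i₀ iu iN (zpl ju jN iu iN z).c (zpl ju jN iu iN z).s d -
        fn i₀ iu iN (zpl ju jN iu iN z).c (zpl ju jN iu iN z).s (zpl ju jN iu iN z).db =
        (d iN - dirZ ju jN z iN * d i₀) - (z.db iN - dirZ ju jN z iN * z.db i₀) := by
      unfold fn zpl
      ring
    rw [e1]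
    exact (kd iN s2).trans vd1

end Pool.S6HF
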