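import Pool.Agent.H99.S6H.Zero

/-!
# The labels of the grid, the case `H = 0`: the exact direction
-/

set_option autoImplicit false

namespace Pool.S6HF

open Finset Real
open Pool.Agent.H49.Ent Pool.Agent.H32.Dense Pool.STK Pool.KA Pool.KSAT Pool.K2S Pool.PB Pool.KS6
  Pool.S6C Pool.FALL Pool.S6F

section zero

variable {J : ℕ} {F : Fam 3 J} {A B : F.Ω → Prop} {i₀ : Fin 3}

/-- Two frames of the fans agree. -/
theorem onl_near {q lp : ℕ} (hs : Spr F i₀ q B) {e n e' n' : (Fin 3 → ℤ) × (ℕ × F.ζ) → Fin 3 → ℝ}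
    (h : OnL i₀ (1 / 2 ^ lp) (Fam.pt F) F.d B e n) (h' : OnL i₀ (1 / 2 ^ lp) (Fam.pt F) F.d B e' n')
    {ω : F.Ω} (hω : B ω) (k : Fin 3) :
    |e (Fam.pt F ω) k - e' (Fam.pt F ω) k| ≤ 8 * 2 ^ q * (1 / 2 ^ lp) := by
  obtain ⟨α, hα⟩ := dir_fn hs
  have h1 := (dir_onL hα h).1 ω hω k
  have h2 := (dir_onL hα h').1 ω hω k
  have e1 : e (Fam.pt F ω) k - e' (Fam.pt F ω) k = (α (Fam.pt F ω) k - e' (Fam.pt F ω) k) -
      (α (Fam.pt F ω) k - e (Fam.pt F ω) k) := by ring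
  rw [e1]
  refine (abs_sub _ _).trans ((add_le_add h2 h1).trans (le_of_eq ?_))
  ring

/-- **The labels of the grid**, in the case `H = 0`. -/
theorem glb_zero {M Pu q : ℕ} {w V' T V : ℕ → ℕ} (hB : Sub B A) (hs : Spr F i₀ q B)
    {ju jN : ℕ → Fin 3} {e n : ℕ → (Fin 3 → ℤ) × (ℕ × F.ζ) → Fin 3 → ℝ} {z : ℕ → F.Ω → Pln}
    {Hh : ℕ → ℕ → ℕ}
    (h : ∀ j ≤ M, NLc F A i₀ (ju j) (jN j) 0 Pu (fun _ => w j) (fun _ => V' j) (fun _ => T j) (Hh j)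
      (e j) (n j) (fun _ => z j)) (hwJ : ∀ j ≤ M, w j ≤ J)
    (hV : ∀ j ≤ M, V j + 6 ≤ V' j) (hT : ∀ j ≤ M, w j + V j + 2 ≤ T j)
    (hPu : ∀ j ≤ M, V j + q + 5 ≤ Pu) :
    GLb F B i₀ (ju 0) (jN 0) M Pu Pu w V V (fun j ω => dirZ (ju j) (jN j) (z j ω) (ju 0))
      (fun j ω => dirZ (ju j) (jN j) (z j ω) (jN 0)) (fun _ => 0)
      (fun ω => e 0 (Fam.pt F ω) (ju 0)) (fun ω => n 0 (Fam.pt F ω) (ju 0))
      (fun ω => e 0 (Fam.pt F ω) (jN 0)) (fun ω => n 0 (Fam.pt F ω) (jN 0))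
      (fun ω => n 0 (Fam.pt F ω) (jN 0)) := by
  have h00 := h 0 (Nat.zero_le _)
  obtain ⟨t1, t2, t3⟩ := three h00.hi
  have hzp : ∀ j ≤ M, ∀ ω ω', B ω → B ω' → Fam.pt F ω = Fam.pt F ω' → z j ω = z j ω' := by
    intro j hj ω ω' hω hω' hp
    obtain ⟨φ, hφ⟩ := (h j hj).zp 0 le_rfl
    rw [hφ ω (hB _ hω), hφ ω' (hB _ hω'), show ptq F J ω = ptq F J ω' from hp]
  have near : ∀ j ≤ M, ∀ ω, B ω → ∀ k, k ≠ i₀ →
      |dirZ (ju j) (jN j) (z j ω) k - e 0 (Fam.pt F ω) k| ≤ 1 / 2 ^ V j := by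
    intro j hj ω hω k hk
    have hjj := h j hj
    have g1 := hjj.ze 0 le_rfl ω (hB _ hω)
    have g2 := hjj.zc 0 le_rfl ω (hB _ hω)
    have g3 := (hjj.inc 0 le_rfl ω (hB _ hω)).s_le
    have g4 := dirZ_near hjj.hi g1 g2 g3 hk
    have g5 := onl_near hs (hjj.ln.sub hB) (h00.ln.sub hB) hω k
    have q1 : (4 : ℝ) * (4 / 2 ^ V' j) ≤ 1 / 2 ^ V j / 4 := by
      rw [mul_div_assoc', div_div, div_le_div_iff₀ (by positivity) (by positivity), one_mul]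
      calc (4 : ℝ) * 4 * (2 ^ V j * 4) = 2 ^ (V j + 6) := by rw [pow_add]; norm_num; ring
        _ ≤ 2 ^ V' j := pow_le_pow_right₀ (by norm_num) (hV j hj)
    have q2 : (2 : ℝ) ^ w j / 2 ^ T j ≤ 1 / 2 ^ V j / 4 := by
      rw [div_div, div_le_div_iff₀ (by positivity) (by positivity), one_mul]
      calc (2 : ℝ) ^ w j * (2 ^ V j * 4) = 2 ^ (w j + V j + 2) := by
            rw [pow_add, pow_add]; norm_num; ring
        _ ≤ 2 ^ T j := pow_le_pow_right₀ (by norm_num) (hT j hj)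
    have q3 : (8 : ℝ) * 2 ^ q * (1 / 2 ^ Pu) ≤ 1 / 2 ^ V j / 4 := by
      rw [mul_one_div, div_div, div_le_div_iff₀ (by positivity) (by positivity), one_mul]
      calc (8 : ℝ) * 2 ^ q * (2 ^ V j * 4) = 2 ^ (V j + q + 5) := by
            rw [pow_add, pow_add]; norm_num; ring
        _ ≤ 2 ^ Pu := pow_le_pow_right₀ (by norm_num) (hPu j hj)
    have e1 : dirZ (ju j) (jN j) (z j ω) k - e 0 (Fam.pt F ω) k =
        (dirZ (ju j) (jN j) (z j ω) k - e j (Fam.pt F ω) k) +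
          (e j (Fam.pt F ω) k - e 0 (Fam.pt F ω) k) := by ring
    rw [e1]
    refine (abs_add_le _ _).trans ((add_le_add g4 g5).trans ?_)
    have q4 : (0 : ℝ) < 1 / 2 ^ V j := by positivity
    linarith
  refine ⟨h00.hi, ?_, fun _ _ _ => rfl, hwJ, ?_, ?_, ?_, ?_, ?_, ?_, ?_, ?_, ?_, ?_⟩
  · intro j hj ω ω' hs'
    obtain ⟨ψ, hψ⟩ := (h j hj).zs 0 le_rfl
    have e1 : z j ω = z j ω' := by rw [hψ, hψ, hs']
    simp only [e1, and_self]
  · intro ω ω' _ _ hp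
    simp only [hp, and_self]
  · intro j hj ω ω' hω hω' hp
    simp only [hzp j hj ω ω' hω hω' hp, and_self]
  · intro ω hω
    exact h00.ln ω (hB _ hω) (ju 0)
  · intro ω hω
    have h1 := h00.ln ω (hB _ hω) (jN 0)
    rw [zero_mul, sub_zero]
    exact h1
  · intro ω hω
    have h1 := h00.ln ω (hB _ hω) (jN 0)
    rw [zero_mul, zero_add]
    exact h1
  · intro j hj ω hω
    exact near j hj ω hω (ju 0) t1
  · intro j hj ω hω
    exact near j hj ω hω (jN 0) t2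
  · intro ω hω
    rw [zero_mul, zero_add]
    exact ⟨(h00.eb ω (hB _ hω) _).trans (by norm_num), (h00.eb ω (hB _ hω) _).trans (by norm_num)⟩
  · intro ω _
    rw [abs_zero]
    norm_num
  · intro ω hω
    refine (h00.eb ω (hB _ hω) _).trans ?_
    have : (0 : ℝ) < 1 / 2 ^ V M := by positivity
    linarith

end zero

end Pool.S6HF
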